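import Mathlib

/-!
Existence of a permutation whose edges, together with the edges of a Hamiltonian cycle,
expand all sets of medium size.
-/

set_option linter.unusedSectionVars false

namespace Pool.Agent.Helper600R2

open Finset

/-- boundary of `U` along the edges `i ~ ρ i` -/
def bd {n : ℕ} (ρ : Equiv.Perm (Fin n)) (U : Finset (Fin n)) : Finset (Fin n) :=
  univ.filter (fun i => ¬ (i ∈ U ↔ ρ i ∈ U))

/-- number of subsets of size at most `b` -/
def Bnum (n b : ℕ) : ℕ := (univ.filter (fun D : Finset (Fin n) => D.card ≤ b)).card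

lemma Bnum_le (n b : ℕ) (hb : b ≤ n) : 32 ^ (n - b) * Bnum n b ≤ 33 ^ n := by
  classical
  have h1 : ∑ D : Finset (Fin n), 32 ^ (n - D.card) = 33 ^ n := by
    have h := Finset.sum_pow_mul_eq_add_pow (1 : ℕ) 32 (univ : Finset (Fin n))
    simp only [powerset_univ, one_pow, one_mul, card_univ, Fintype.card_fin] at h
    rw [h]
  rw [← h1, Bnum, mul_comm, ← smul_eq_mul]
  calc (univ.filter (fun D : Finset (Fin n) => D.card ≤ b)).card • 32 ^ (n - b)
      = ∑ D ∈ univ.filter (fun D : Finset (Fin n) => D.card ≤ b), 32 ^ (n - b) := by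
        rw [Finset.sum_const]
    _ ≤ ∑ D ∈ univ.filter (fun D : Finset (Fin n) => D.card ≤ b), 32 ^ (n - D.card) := by
        apply Finset.sum_le_sum
        intro D hD
        simp only [mem_filter, mem_univ, true_and] at hD
        exact Nat.pow_le_pow_right (by norm_num) (by omega)
    _ ≤ ∑ D : Finset (Fin n), 32 ^ (n - D.card) :=
        Finset.sum_le_sum_of_subset (filter_subset _ _)

lemma two_pow_le_centralBinom (r : ℕ) : 2 ^ r ≤ Nat.centralBinom r := by
  induction r with
  | zero => simp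
  | succ r ih =>
    have h := Nat.succ_mul_centralBinom_succ r
    have h2 : (r + 1) * 2 ^ (r + 1) ≤ (r + 1) * Nat.centralBinom (r + 1) := by
      rw [h, pow_succ]
      nlinarith [Nat.zero_le (r * Nat.centralBinom r)]
    exact Nat.le_of_mul_le_mul_left h2 (Nat.succ_pos r)

lemma two_pow_le_choose {n r : ℕ} (h : 2 * r ≤ n) : 2 ^ r ≤ n.choose r := by
  refine (two_pow_le_centralBinom r).trans ?_
  rw [Nat.centralBinom]
  exact Nat.choose_le_choose r h

lemma choose_cube {n r : ℕ} (h1 : n ≤ 3 * r) (h2 : 3 * r ≤ 2 * n) : 2 ^ n ≤ n.choose r ^ 3 := by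
  rcases Nat.lt_or_ge n (2 * r) with h | h
  · have h3 : 2 ^ (n - r) ≤ n.choose (n - r) := two_pow_le_choose (by omega)
    rw [Nat.choose_symm (by omega)] at h3
    calc 2 ^ n ≤ 2 ^ ((n - r) * 3) := Nat.pow_le_pow_right (by norm_num) (by omega)
      _ = (2 ^ (n - r)) ^ 3 := by rw [pow_mul]
      _ ≤ _ := Nat.pow_le_pow_left h3 3
  · have h3 : 2 ^ r ≤ n.choose r := two_pow_le_choose h
    calc 2 ^ n ≤ 2 ^ (r * 3) := Nat.pow_le_pow_right (by norm_num) (by omega)
      _ = (2 ^ r) ^ 3 := by rw [pow_mul]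
      _ ≤ _ := Nat.pow_le_pow_left h3 3

lemma Bnum_small {n : ℕ} (hn : 25 ≤ n) : 8 * Bnum n (n / 60) ^ 6 < 2 ^ n := by
  set b := n / 60 with hb
  have hbn : b ≤ n := by omega
  by_contra hcon
  push Not at hcon
  have h1 := Bnum_le n b hbn
  have h2 : (32 ^ (n - b)) ^ 6 * Bnum n b ^ 6 ≤ (33 ^ n) ^ 6 := by
    rw [← mul_pow]; exact Nat.pow_le_pow_left h1 6
  have h3 : 2 ^ n * (32 ^ (n - b)) ^ 6 ≤ 8 * (33 ^ n) ^ 6 := by
    calc 2 ^ n * (32 ^ (n - b)) ^ 6 ≤ (8 * Bnum n b ^ 6) * (32 ^ (n - b)) ^ 6 :=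
          Nat.mul_le_mul_right _ hcon
      _ = 8 * ((32 ^ (n - b)) ^ 6 * Bnum n b ^ 6) := by ring
      _ ≤ 8 * (33 ^ n) ^ 6 := Nat.mul_le_mul_left _ h2
  have h4 : (2 ^ n * (32 ^ (n - b)) ^ 6) ^ 16 ≤ (8 * (33 ^ n) ^ 6) ^ 16 :=
    Nat.pow_le_pow_left h3 16
  have h5 : (2 ^ n * (32 ^ (n - b)) ^ 6) ^ 16 = 2 ^ (16 * n + 480 * (n - b)) := by
    rw [show (32 : ℕ) = 2 ^ 5 by norm_num]
    rw [← pow_mul, ← pow_mul, ← pow_add, ← pow_mul]
    congr 1; ring
  have h6 : (8 * (33 ^ n) ^ 6) ^ 16 ≤ 2 ^ (48 + 6 * n + 480 * n) := by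
    have h7 : (33 : ℕ) ^ 16 ≤ 2 * 32 ^ 16 := by norm_num
    calc (8 * (33 ^ n) ^ 6) ^ 16 = 2 ^ 48 * ((33 : ℕ) ^ 16) ^ (6 * n) := by
          rw [show (8 : ℕ) = 2 ^ 3 by norm_num]
          rw [mul_pow, ← pow_mul, ← pow_mul, ← pow_mul, ← pow_mul]
          congr 2; ring
      _ ≤ 2 ^ 48 * (2 * 32 ^ 16) ^ (6 * n) :=
          Nat.mul_le_mul_left _ (Nat.pow_le_pow_left h7 _)
      _ = 2 ^ (48 + 6 * n + 480 * n) := by
          rw [show (32 : ℕ) = 2 ^ 5 by norm_num]
          rw [← pow_mul, mul_pow, ← pow_mul, ← pow_add, ← pow_add]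
          congr 1; ring
  rw [h5] at h4
  have h8 := (Nat.pow_le_pow_iff_right (by norm_num : 1 < 2)).mp (h4.trans h6)
  omega

lemma cyc_count (n b : ℕ) :
    (univ.filter (fun U : Finset (Fin n) => (bd (finRotate n) U).card ≤ b)).card ≤
      2 * Bnum n b := by
  classical
  cases n with
  | zero =>
    refine (card_le_card (filter_subset _ _)).trans ?_
    have : 1 ≤ Bnum 0 b := by
      unfold Bnum
      rw [Nat.succ_le_iff, card_pos]
      exact ⟨∅, by rw [mem_filter]; exact ⟨mem_univ _, by simp⟩⟩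
    simp only [card_univ, Fintype.card_finset, Fintype.card_fin, pow_zero]
    omega
  | succ n =>
    let φ : Finset (Fin (n + 1)) → Finset (Fin (n + 1)) × Bool :=
      fun U => (bd (finRotate (n + 1)) U, decide ((0 : Fin (n + 1)) ∈ U))
    have hinj : Function.Injective φ := by
      intro U U' h
      have h1 : bd (finRotate (n + 1)) U = bd (finRotate (n + 1)) U' := congrArg Prod.fst h
      have h2 : ((0 : Fin (n + 1)) ∈ U) ↔ ((0 : Fin (n + 1)) ∈ U') := by
        have := congrArg Prod.snd h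
        simpa [φ] using this
      have h3 : ∀ k : ℕ, ∀ hk : k < n + 1, ((⟨k, hk⟩ : Fin (n + 1)) ∈ U ↔
          (⟨k, hk⟩ : Fin (n + 1)) ∈ U') := by
        intro k
        induction k with
        | zero => intro _; exact h2
        | succ k ih =>
          intro hk
          have ihk := ih (by omega)
          have hmem : ((⟨k, by omega⟩ : Fin (n + 1)) ∈ bd (finRotate (n + 1)) U) ↔
              ((⟨k, by omega⟩ : Fin (n + 1)) ∈ bd (finRotate (n + 1)) U') := by rw [h1]
          have hrot : finRotate (n + 1) (⟨k, by omega⟩ : Fin (n + 1)) = ⟨k + 1, hk⟩ := by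
            rw [finRotate_apply]
            apply Fin.ext
            rw [Fin.val_add_one_of_lt']
            · exact hk
          simp only [bd, mem_filter, mem_univ, true_and, hrot] at hmem
          tauto
      ext i
      exact h3 i.val i.isLt
    have h4 : (univ.filter (fun U : Finset (Fin (n + 1)) =>
        (bd (finRotate (n + 1)) U).card ≤ b)).card =
        ((univ.filter (fun U : Finset (Fin (n + 1)) =>
        (bd (finRotate (n + 1)) U).card ≤ b)).image φ).card :=
      (card_image_of_injective _ hinj).symm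
    rw [h4]
    have h5 : (univ.filter (fun U : Finset (Fin (n + 1)) =>
        (bd (finRotate (n + 1)) U).card ≤ b)).image φ ⊆
        (univ.filter (fun D : Finset (Fin (n + 1)) => D.card ≤ b)) ×ˢ (univ : Finset Bool) := by
      intro p hp
      simp only [mem_image, mem_filter, mem_univ, true_and] at hp
      obtain ⟨U, hU, rfl⟩ := hp
      simp only [φ, mem_product, mem_filter, mem_univ, true_and, and_true]
      exact hU
    refine (card_le_card h5).trans ?_
    rw [card_product]
    simp [Bnum, mul_comm]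

/-- preimage of `U` under `π` -/
def pre {n : ℕ} (U : Finset (Fin n)) (π : Equiv.Perm (Fin n)) : Finset (Fin n) :=
  univ.filter (fun i => π i ∈ U)

lemma card_pre {n : ℕ} (U : Finset (Fin n)) (π : Equiv.Perm (Fin n)) :
    (pre U π).card = U.card := by
  classical
  have : pre U π = U.map π.symm.toEmbedding := by
    ext i
    simp only [pre, mem_filter, mem_univ, true_and, mem_map_equiv, Equiv.symm_symm]
  rw [this, card_map]

lemma fiber_card_eq {n : ℕ} (U T T' : Finset (Fin n)) (h : T.card = T'.card) :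
    (univ.filter (fun π : Equiv.Perm (Fin n) => pre U π = T)).card =
      (univ.filter (fun π : Equiv.Perm (Fin n) => pre U π = T')).card := by
  classical
  -- a permutation taking `T'` to `T`
  obtain ⟨ρ, hρ⟩ : ∃ ρ : Equiv.Perm (Fin n), ∀ i, ρ i ∈ T ↔ i ∈ T' := by
    let e : {x // x ∈ T'} ≃ {x // x ∈ T} := Finset.equivOfCardEq h.symm
    refine ⟨Equiv.extendSubtype e, fun i => ?_⟩
    constructor
    · intro hi
      by_contra hcon
      exact Equiv.extendSubtype_not_mem e i hcon hi
    · intro hi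
      exact Equiv.extendSubtype_mem e i hi
  refine Finset.card_bij (fun π _ => ρ.trans π) ?_ ?_ ?_
  · intro π hπ
    simp only [mem_filter, mem_univ, true_and] at hπ ⊢
    ext i
    have h1 : ρ i ∈ pre U π ↔ ρ i ∈ T := by rw [hπ]
    rw [hρ] at h1
    simp only [pre, mem_filter, mem_univ, true_and, Equiv.trans_apply] at h1 ⊢
    exact h1
  · intro π _ π' _ hh
    ext i
    have := Equiv.congr_fun hh (ρ.symm i)
    simpa using congrArg Fin.val this
  · intro π hπ
    simp only [mem_filter, mem_univ, true_and] at hπ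
    refine ⟨ρ.symm.trans π, ?_, ?_⟩
    · simp only [mem_filter, mem_univ, true_and]
      ext i
      have h1 : ρ.symm i ∈ pre U π ↔ ρ.symm i ∈ T' := by rw [hπ]
      rw [← hρ, Equiv.apply_symm_apply] at h1
      simp only [pre, mem_filter, mem_univ, true_and, Equiv.trans_apply] at h1 ⊢
      exact h1
    · ext i; simp

lemma fiber_mul_choose {n : ℕ} (U T : Finset (Fin n)) (h : T.card = U.card) :
    (univ.filter (fun π : Equiv.Perm (Fin n) => pre U π = T)).card * n.choose U.card =
      n.factorial := by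
  classical
  have h1 := Finset.card_eq_sum_card_fiberwise
    (s := (univ : Finset (Equiv.Perm (Fin n)))) (t := powersetCard U.card univ)
    (f := pre U) (by
      intro π _
      rw [mem_coe, mem_powersetCard_univ]
      exact card_pre U π)
  have h2 : ∀ T' ∈ powersetCard U.card (univ : Finset (Fin n)),
      (univ.filter (fun π : Equiv.Perm (Fin n) => pre U π = T')).card =
      (univ.filter (fun π : Equiv.Perm (Fin n) => pre U π = T)).card := by
    intro T' hT'
    rw [mem_powersetCard_univ] at hT'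
    exact fiber_card_eq U T' T (by rw [hT', h])
  rw [Finset.sum_congr rfl h2, Finset.sum_const, card_powersetCard, card_univ, card_univ,
    Fintype.card_fin, Fintype.card_perm, Fintype.card_fin, smul_eq_mul] at h1
  rw [h1, mul_comm]

lemma perm_count {n : ℕ} (U : Finset (Fin n)) (b : ℕ) :
    (univ.filter (fun π : Equiv.Perm (Fin n) => (bd π U).card ≤ b)).card * n.choose U.card ≤
      Bnum n b * n.factorial := by
  classical
  let s := univ.filter (fun π : Equiv.Perm (Fin n) => (bd π U).card ≤ b)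
  obtain ⟨F, hF⟩ : ∃ F, F * n.choose U.card = n.factorial ∧ ∀ T : Finset (Fin n),
      T.card = U.card → (univ.filter (fun π : Equiv.Perm (Fin n) => pre U π = T)).card = F := by
    refine ⟨(univ.filter (fun π : Equiv.Perm (Fin n) => pre U π = U)).card,
      fiber_mul_choose U U rfl, fun T hT => fiber_card_eq U T U hT⟩
  have h1 : s.card ≤ F * (s.image (fun π => bd π U)).card := by
    apply Finset.card_le_mul_card_image
    intro D hD
    simp only [mem_image] at hD
    obtain ⟨π₀, _, rfl⟩ := hD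
    have h2 : (s.filter (fun π => bd π U = bd π₀ U)) ⊆
        univ.filter (fun π : Equiv.Perm (Fin n) => pre U π = pre U π₀) := by
      intro π hπ
      simp only [mem_filter, mem_univ, true_and] at hπ ⊢
      ext i
      have h3 : i ∈ bd π U ↔ i ∈ bd π₀ U := by rw [hπ.2]
      simp only [bd, pre, mem_filter, mem_univ, true_and] at h3 ⊢
      tauto
    refine (card_le_card h2).trans ?_
    rw [hF.2 _ (card_pre U π₀)]
  have h2 : (s.image (fun π => bd π U)).card ≤ Bnum n b := by
    apply card_le_card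
    intro D hD
    simp only [mem_image, s, mem_filter, mem_univ, true_and] at hD ⊢
    obtain ⟨π, hπ, rfl⟩ := hD
    exact hπ
  calc s.card * n.choose U.card ≤ (F * (s.image (fun π => bd π U)).card) * n.choose U.card :=
        Nat.mul_le_mul_right _ h1
    _ = (s.image (fun π => bd π U)).card * (F * n.choose U.card) := by ring
    _ ≤ Bnum n b * (F * n.choose U.card) := Nat.mul_le_mul_right _ h2
    _ = Bnum n b * n.factorial := by rw [hF.1]

/-- There is a permutation which together with the cyclic rotation expands medium sets. -/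
theorem exists_expander {n : ℕ} (hn : 25 ≤ n) : ∃ π : Equiv.Perm (Fin n),
    ∀ U : Finset (Fin n), n ≤ 3 * U.card → 3 * U.card ≤ 2 * n →
      n / 60 < (bd (finRotate n) U).card ∨ n / 60 < (bd π U).card := by
  classical
  by_contra hcon
  push Not at hcon
  set b := n / 60 with hb
  set B := Bnum n b with hB
  have hBsmall : 8 * B ^ 6 < 2 ^ n := Bnum_small hn
  let 𝒰 : Finset (Finset (Fin n)) := univ.filter (fun U =>
    (n ≤ 3 * U.card ∧ 3 * U.card ≤ 2 * n) ∧ (bd (finRotate n) U).card ≤ b)
  have h𝒰 : 𝒰.card ≤ 2 * B := by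
    refine (card_le_card ?_).trans (cyc_count n b)
    intro U hU
    simp only [𝒰, mem_filter, mem_univ, true_and] at hU ⊢
    exact hU.2
  have hcover : (univ : Finset (Equiv.Perm (Fin n))) ⊆
      𝒰.biUnion (fun U => univ.filter (fun π : Equiv.Perm (Fin n) => (bd π U).card ≤ b)) := by
    intro π _
    obtain ⟨U, h1, h2, h3, h4⟩ := hcon π
    simp only [mem_biUnion, mem_filter, mem_univ, true_and, 𝒰]
    exact ⟨U, ⟨⟨h1, h2⟩, h3⟩, h4⟩
  have hfact : n.factorial ≤ ∑ U ∈ 𝒰,
      (univ.filter (fun π : Equiv.Perm (Fin n) => (bd π U).card ≤ b)).card := by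
    have h1 := (card_le_card hcover).trans card_biUnion_le
    rwa [card_univ, Fintype.card_perm, Fintype.card_fin] at h1
  have hC : ∀ U ∈ 𝒰, 2 * B ^ 2 + 1 ≤ n.choose U.card := by
    intro U hU
    simp only [𝒰, mem_filter, mem_univ, true_and] at hU
    have h1 := choose_cube hU.1.1 hU.1.2
    by_contra h2
    push Not at h2
    have h3 : n.choose U.card ≤ 2 * B ^ 2 := by omega
    have h4 : n.choose U.card ^ 3 ≤ (2 * B ^ 2) ^ 3 := Nat.pow_le_pow_left h3 3
    have h5 : (2 * B ^ 2) ^ 3 = 8 * B ^ 6 := by ring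
    omega
  have hterm : ∀ U ∈ 𝒰, (univ.filter (fun π : Equiv.Perm (Fin n) => (bd π U).card ≤ b)).card
      * (2 * B ^ 2 + 1) ≤ B * n.factorial := by
    intro U hU
    exact (Nat.mul_le_mul_left _ (hC U hU)).trans (perm_count U b)
  have hfin : n.factorial * (2 * B ^ 2 + 1) ≤ (2 * B) * (B * n.factorial) := by
    calc n.factorial * (2 * B ^ 2 + 1) ≤ (∑ U ∈ 𝒰,
        (univ.filter (fun π : Equiv.Perm (Fin n) => (bd π U).card ≤ b)).card) * (2 * B ^ 2 + 1) :=
          Nat.mul_le_mul_right _ hfact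
      _ = ∑ U ∈ 𝒰, (univ.filter (fun π : Equiv.Perm (Fin n) => (bd π U).card ≤ b)).card
          * (2 * B ^ 2 + 1) := Finset.sum_mul _ _ _
      _ ≤ ∑ _U ∈ 𝒰, B * n.factorial := Finset.sum_le_sum hterm
      _ = 𝒰.card * (B * n.factorial) := by rw [Finset.sum_const, smul_eq_mul]
      _ ≤ (2 * B) * (B * n.factorial) := Nat.mul_le_mul_right _ h𝒰
  have hpos := Nat.factorial_pos n
  nlinarith

end Pool.Agent.Helper600R2
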