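import Pool.Agent.Helper600R2.Fourier
import Pool.Agent.Helper600R2.Expander

/-!
The base graph and the lifted systems.
-/

set_option linter.unusedSectionVars false

namespace Pool.Agent.Helper600R2

open Finset

section graph

variable {n : ℕ} (π : Equiv.Perm (Fin n))

/-- tails of the edges of the base graph -/
def gtl : Fin n × Bool → Fin n := fun e => e.1
/-- heads of the edges of the base graph -/
def ghd : Fin n × Bool → Fin n := fun e => if e.2 then π e.1 else finRotate n e.1

variable {q : ℕ} [NeZero q]

lemma graph_bd1 (u : Fin n → ZMod q) :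
    (bd (finRotate n) (nsupp u)).card ≤ (nsupp (dd (ghd π) gtl u)).card := by
  refine card_le_card_of_injOn (fun i => (i, false)) ?_ ?_
  · intro i hi
    simp only [bd, nsupp, coe_filter, mem_filter, mem_univ, true_and, Set.mem_ofPred_eq] at hi ⊢
    intro h
    simp only [dd, ghd, gtl] at h
    have h' : u (finRotate n i) = u i := by simpa [sub_eq_zero] using h
    rw [h'] at hi
    exact hi Iff.rfl
  · intro i _ j _ h
    exact congrArg Prod.fst h

lemma graph_bd2 (u : Fin n → ZMod q) :
    (bd π (nsupp u)).card ≤ (nsupp (dd (ghd π) gtl u)).card := by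
  refine card_le_card_of_injOn (fun i => (i, true)) ?_ ?_
  · intro i hi
    simp only [bd, nsupp, coe_filter, mem_filter, mem_univ, true_and, Set.mem_ofPred_eq] at hi ⊢
    intro h
    simp only [dd, ghd, gtl] at h
    have h' : u (π i) = u i := by simpa [sub_eq_zero] using h
    rw [h'] at hi
    exact hi Iff.rfl
  · intro i _ j _ h
    exact congrArg Prod.fst h

lemma graph_exp (hπ : ∀ U : Finset (Fin n), n ≤ 3 * U.card → 3 * U.card ≤ 2 * n →
      n / 60 < (bd (finRotate n) U).card ∨ n / 60 < (bd π U).card)
    {D : ℕ} (hD : 2 * D ≤ n / 60) (u : Fin n → ZMod q)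
    (h1 : (nsupp (dd (ghd π) gtl u)).card ≤ 2 * D)
    (h2 : 3 * (nsupp u).card < 2 * Fintype.card (Fin n)) :
    3 * (nsupp u).card < Fintype.card (Fin n) := by
  rw [Fintype.card_fin] at *
  by_contra hcon
  push Not at hcon
  have h3 := graph_bd1 π u
  have h4 := graph_bd2 π u
  rcases hπ (nsupp u) hcon h2.le with h | h <;> omega

lemma graph_conn (u : Fin n → ZMod q) (h : dd (ghd π) gtl u = 0)
    (hs : (nsupp u).card < Fintype.card (Fin n)) : u = 0 := by
  cases n with
  | zero => funext i; exact i.elim0
  | succ n =>
    have hstep : ∀ i : Fin (n + 1), u (finRotate (n + 1) i) = u i := by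
      intro i
      have := congrFun h (i, false)
      simpa [dd, ghd, gtl, sub_eq_zero] using this
    have hconst : ∀ k : ℕ, ∀ hk : k < n + 1, u ⟨k, hk⟩ = u 0 := by
      intro k
      induction k with
      | zero => intro _; rfl
      | succ k ih =>
        intro hk
        have hrot : finRotate (n + 1) (⟨k, by omega⟩ : Fin (n + 1)) = ⟨k + 1, hk⟩ := by
          rw [finRotate_apply]
          apply Fin.ext
          rw [Fin.val_add_one_of_lt']
          exact hk
        rw [← hrot, hstep]
        exact ih (by omega)
    have hz : ∃ i, u i = 0 := by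
      by_contra hcon
      push Not at hcon
      have : nsupp u = univ := by
        ext i; simp [nsupp, hcon i]
      rw [this, card_univ] at hs
      exact lt_irrefl _ hs
    obtain ⟨i, hi⟩ := hz
    have h0 : u 0 = 0 := by rw [← hconst i.val i.isLt]; exact hi
    funext j
    exact (hconst j.val j.isLt).trans h0

lemma graph_deg (v : Fin n) (c : ZMod q) :
    (nsupp (dd (ghd π) gtl (Pi.single v c))).card ≤ 4 := by
  classical
  have h : nsupp (dd (ghd π) gtl (Pi.single v c)) ⊆
      {(v, false), (v, true), ((finRotate n).symm v, false), (π.symm v, true)} := by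
    rintro ⟨i, s⟩ hi
    simp only [nsupp, mem_filter, mem_univ, true_and] at hi
    simp only [mem_insert, mem_singleton, Prod.mk.injEq]
    by_contra hcon
    push Not at hcon
    apply hi
    have hiv : i ≠ v := by
      rintro rfl
      cases s
      · exact hcon.1 rfl rfl
      · exact hcon.2.1 rfl rfl
    have hh : ghd π (i, s) ≠ v := by
      cases s
      · intro hh
        change finRotate n i = v at hh
        refine hcon.2.2.1 ?_ rfl
        rw [← hh, Equiv.symm_apply_apply]
      · intro hh
        change π i = v at hh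
        refine hcon.2.2.2 ?_ rfl
        rw [← hh, Equiv.symm_apply_apply]
    simp only [dd, gtl]
    rw [Pi.single_eq_of_ne hh, Pi.single_eq_of_ne hiv, sub_zero]
  refine (card_le_card h).trans ?_
  exact (card_le_four)

end graph

section lift

/-- fill in the dead coordinates -/
def merge {V : Type*} (ρ : V → Bool × Bool) (y : V → Bool) : V → Bool :=
  fun i => if (ρ i).1 then y i else (ρ i).2

variable {n : ℕ} (π : Equiv.Perm (Fin n)) {q : ℕ} [NeZero q] {r m : ℕ}

/-- the edge values: sum mod `q` of the Boolean variables of the block -/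
def zsum (q : ℕ) {E : Type*} {r m : ℕ} (x : E × Fin r × Fin m → Bool) : E → ZMod q :=
  fun e => ∑ t : Fin r, ∑ j : Fin m, if x (e, t, j) then (1 : ZMod q) else 0

/-- the lifted constraints -/
def LC (b : Fin n → ZMod q) (v : Fin n) (x : (Fin n × Bool) × Fin r × Fin m → Bool) : Prop :=
  flow (ghd π) gtl v (zsum q x) = b v

lemma thermo {q : ℕ} [NeZero q] (hr : r + 1 = q) (z : ZMod q) :
    (∑ t : Fin r, if t.val < z.val then (1 : ZMod q) else 0) = z := by
  have h1 : (∑ t : Fin r, if t.val < z.val then (1 : ZMod q) else 0) =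
      ((univ.filter (fun t : Fin r => t.val < z.val)).card : ZMod q) := by
    rw [Finset.sum_boole]
  rw [h1]
  have hz : z.val < q := ZMod.val_lt z
  have h2 : (univ.filter (fun t : Fin r => t.val < z.val)).card = z.val := by
    have h3 : (univ.filter (fun t : Fin r => t.val < z.val)).card =
        ((univ.filter (fun t : Fin r => t.val < z.val)).map Fin.valEmbedding).card := by
      rw [card_map]
    rw [h3]
    have h4 : (univ.filter (fun t : Fin r => t.val < z.val)).map Fin.valEmbedding =
        range z.val := by
      ext k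
      simp only [mem_map, mem_filter, mem_univ, true_and, mem_range, Fin.valEmbedding_apply]
      constructor
      · rintro ⟨a, ha, rfl⟩; exact ha
      · intro hk; exact ⟨⟨k, by omega⟩, hk, rfl⟩
    rw [h4, card_range]
  rw [h2, ZMod.natCast_val, ZMod.cast_id]

lemma flow_add {Vt E : Type*} [Fintype Vt] [Fintype E] [DecidableEq Vt] (hd tl : E → Vt)
    (v : Vt) (z c : E → ZMod q) : flow hd tl v (z + c) = flow hd tl v z + flow hd tl v c := by
  simp [flow, mul_add, Finset.sum_add_distrib]

variable {K : Type*} [Field K] (ψ : AddChar (ZMod q) K)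

/-- The degree lower bound for lifted systems: if some restriction `ρ`, leaving at least one
variable of each subblock alive, makes all members of a sound sequence of low degree, then no
member of the sequence is identically false. -/
theorem lifted_no_low_degree (hψ : ψ.IsPrimitive) (hq : (q : K) ≠ 0) (hr : r + 1 = q)
    (hn : 4 ≤ n)
    (hπ : ∀ U : Finset (Fin n), n ≤ 3 * U.card → 3 * U.card ≤ 2 * n →
      n / 60 < (bd (finRotate n) U).card ∨ n / 60 < (bd π U).card)
    (b : Fin n → ZMod q) (w k : ℕ) (hw : 2 * ((k + 1) * w + 4) ≤ n / 60)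
    {L : ℕ} (f : Fin L → ((Fin n × Bool) × Fin r × Fin m → Bool) → Bool)
    (hf : Sound (LC π b) k f)
    (ρ : (Fin n × Bool) × Fin r × Fin m → Bool × Bool)
    (halive : ∀ e t, ∃ j, (ρ (e, t, j)).1 = true)
    (hdeg : ∀ i, toK K (fun y => f i (merge ρ y)) ∈ J K w) (i : Fin L) :
    ∃ x, f i x = true := by
  classical
  choose jj hjj using halive
  -- the substitution
  let y : (Fin n × Bool → ZMod q) → ((Fin n × Bool) × Fin r × Fin m → Bool) := fun z p =>
    if p.2.2 = jj p.1 p.2.1 then decide (p.2.1.val < (z p.1).val) else false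
  let c : Fin n × Bool → ZMod q := fun e => ∑ t : Fin r, ∑ j : Fin m,
    if (ρ (e, t, j)).1 then (0 : ZMod q) else if (ρ (e, t, j)).2 then 1 else 0
  have hzs : ∀ z, zsum q (merge ρ (y z)) = z + c := by
    intro z
    funext e
    simp only [zsum, Pi.add_apply, c]
    have h1 : ∀ t : Fin r, (∑ j : Fin m,
        if merge ρ (y z) (e, t, j) = true then (1 : ZMod q) else 0) =
        (if t.val < (z e).val then (1 : ZMod q) else 0) +
        ∑ j : Fin m, if (ρ (e, t, j)).1 then (0 : ZMod q) else
          if (ρ (e, t, j)).2 then 1 else 0 := by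
      intro t
      have h2 : (if t.val < (z e).val then (1 : ZMod q) else 0) =
          ∑ j : Fin m, if j = jj e t then (if t.val < (z e).val then (1 : ZMod q) else 0)
            else 0 := by
        rw [Finset.sum_ite_eq' univ (jj e t)]
        simp
      rw [h2, ← Finset.sum_add_distrib]
      refine Finset.sum_congr rfl (fun j _ => ?_)
      by_cases hj : j = jj e t
      · subst hj
        simp [merge, y, hjj e t]
      · by_cases ha : (ρ (e, t, j)).1 = true
        · simp [merge, y, hj, ha]
        · simp [merge, hj, ha]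
    rw [Finset.sum_congr rfl (fun t _ => h1 t), Finset.sum_add_distrib, thermo hr]
  let b' : Fin n → ZMod q := fun v => b v - flow (ghd π) gtl v c
  let g : Fin L → (Fin n × Bool → ZMod q) → Bool := fun i z => f i (merge ρ (y z))
  have hg : Sound (fun v z => flow (ghd π) gtl v z = b' v) k g := by
    intro i
    rcases hf i with ⟨v, hv⟩ | ⟨P, hPk, hPlt, hP⟩
    · left
      refine ⟨v, fun z hz => hv _ ?_⟩
      show flow (ghd π) gtl v (zsum q (merge ρ (y z))) = b v
      rw [hzs, flow_add, hz]
      simp [b']
    · right
      exact ⟨P, hPk, hPlt, fun z hz => hP _ hz⟩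
  have hgdeg : ∀ i, toK K (g i) ∈ DC ψ w := by
    intro i
    apply J_le_DC ψ hψ hq w
    refine J_comp (hdeg i) y (fun p => p.1) ?_
    intro p z z' hzz
    simp only [y, hzz]
  obtain ⟨z, hz⟩ := no_low_degree (ghd π) gtl ψ hψ hq b' (by rw [Fintype.card_fin]; omega) 4 w k
    (graph_deg π) (graph_conn π) (graph_exp π hπ hw) g hg hgdeg i
  exact ⟨_, hz⟩

end lift

end Pool.Agent.Helper600R2
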