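import Pool.Agent.Helper600R2.Blocks

/-!
Degree of Boolean functions of terms and mod `p` sums of terms after a block restriction.
-/

set_option linter.unusedSectionVars false

namespace Pool.Agent.Helper600R2

open Finset

/-- value of a conjunction of literals -/
def tval {α : Type*} (T : Finset (α × Bool)) (x : α → Bool) : Bool :=
  decide (∀ l ∈ T, x l.1 = l.2)

lemma tval_image {α β : Type*} [DecidableEq β] (g : α → β) (T : Finset (α × Bool))
    (x : β → Bool) :
    tval (T.image (fun l => (g l.1, l.2))) x = tval T (fun a => x (g a)) := by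
  simp only [tval, decide_eq_decide, mem_image, forall_exists_index, and_imp]
  constructor
  · intro h l hl
    exact h _ l hl rfl
  · rintro h _ l hl rfl
    exact h l hl

section

variable {A : Type*} [Fintype A] [DecidableEq A]

/-- the restriction given by block states -/
def mrgB (ρ : A → St) : A × Fin 3 → Bool × Bool :=
  fun v => (decide (v.2 = (ρ v.1).1), (ρ v.1).2 v.2)

lemma tval_dead (U : Finset ((A × Fin 3) × Bool)) (ρ : A → St) (h : ¬ okT U ρ)
    (y : A × Fin 3 → Bool) : tval U (merge (mrgB ρ) y) = false := by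
  simp only [tval, decide_eq_false_iff_not]
  intro hcon
  apply h
  intro a
  simp only [okB, pat, decide_eq_true_eq]
  intro j s hjs
  by_contra hc
  push Not at hc
  have := hcon _ hjs
  simp only [merge, mrgB, decide_eq_true_eq, hc.1, if_false] at this
  exact hc.2 this

lemma tval_depends (U : Finset ((A × Fin 3) × Bool)) (ρ : A → St) {y z : A × Fin 3 → Bool}
    (h : ∀ a ∈ al U ρ, y (a, (ρ a).1) = z (a, (ρ a).1)) :
    tval U (merge (mrgB ρ) y) = tval U (merge (mrgB ρ) z) := by
  have h1 : ∀ l ∈ U, merge (mrgB ρ) y l.1 = merge (mrgB ρ) z l.1 := by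
    rintro ⟨⟨a, j⟩, s⟩ hl
    simp only [merge, mrgB, decide_eq_true_eq]
    by_cases hj : j = (ρ a).1
    · rw [if_pos hj, if_pos hj, hj]
      apply h
      simp only [al, mem_filter, mem_univ, true_and, pat, Bool.or_eq_true, decide_eq_true_eq]
      rw [hj] at hl
      cases s
      · exact Or.inr hl
      · exact Or.inl hl
    · rw [if_neg hj, if_neg hj]
  simp only [tval, decide_eq_decide]
  constructor
  · intro hy l hl; rw [← h1 l hl]; exact hy l hl
  · intro hy l hl; rw [h1 l hl]; exact hy l hl

variable {p : ℕ} [Fact p.Prime] {K : Type*} [Field K] [CharP K p]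

lemma sum_deg (ρ : A → St) (θ : ℕ) (sup : Finset (Finset ((A × Fin 3) × Bool)))
    (coef : Finset ((A × Fin 3) × Bool) → ZMod p)
    (hθ : ∀ T ∈ sup, okT T ρ → T.card ≤ θ) :
    (fun y => ZMod.castHom (dvd_refl p) K
      (∑ T ∈ sup, if tval T (merge (mrgB ρ) y) = true then coef T else 0) :
        (A × Fin 3 → Bool) → K) ∈ J K θ := by
  have h1 : (fun y => ZMod.castHom (dvd_refl p) K
      (∑ T ∈ sup, if tval T (merge (mrgB ρ) y) = true then coef T else 0) :
        (A × Fin 3 → Bool) → K) =
      ∑ T ∈ sup, fun y => ZMod.castHom (dvd_refl p) K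
        (if tval T (merge (mrgB ρ) y) = true then coef T else 0) := by
    funext y
    rw [Finset.sum_apply, map_sum]
  rw [h1]
  refine Submodule.sum_mem _ (fun T hT => ?_)
  by_cases hok : okT T ρ
  · refine junta_mem (T.image (fun l => l.1)) (card_image_le.trans (hθ T hT hok)) ?_
    intro y z hyz
    have h2 : tval T (merge (mrgB ρ) y) = tval T (merge (mrgB ρ) z) := by
      simp only [tval, decide_eq_decide]
      have h3 : ∀ l ∈ T, merge (mrgB ρ) y l.1 = merge (mrgB ρ) z l.1 := by
        intro l hl
        have : y l.1 = z l.1 := by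
          apply hyz
          simp only [coe_image, Set.mem_image]
          exact ⟨l, hl, rfl⟩
        simp only [merge, this]
      constructor
      · intro hy l hl; rw [← h3 l hl]; exact hy l hl
      · intro hy l hl; rw [h3 l hl]; exact hy l hl
    simp only [h2]
  · have h2 : (fun y => ZMod.castHom (dvd_refl p) K
        (if tval T (merge (mrgB ρ) y) = true then coef T else 0) :
          (A × Fin 3 → Bool) → K) = 0 := by
      funext y
      rw [tval_dead T ρ hok]
      simp
    rw [h2]
    exact Submodule.zero_mem _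

lemma line_deg (ρ : A → St) (θ : ℕ) {s g : ℕ} (τ : Fin s → Finset ((A × Fin 3) × Bool))
    (sup : Fin g → Finset (Finset ((A × Fin 3) × Bool)))
    (coef : Fin g → Finset ((A × Fin 3) × Bool) → ZMod p)
    (out : (Fin s → Bool) → (Fin g → ZMod p) → Bool)
    (hθ : ∀ j, ∀ T ∈ sup j, okT T ρ → T.card ≤ θ) :
    toK K (fun y : A × Fin 3 → Bool => out (fun i => tval (τ i) (merge (mrgB ρ) y))
      (fun j => ∑ T ∈ sup j, if tval T (merge (mrgB ρ) y) = true then coef j T else 0)) ∈
      J K (DD τ ρ + g * ((p - 1) * θ)) := by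
  classical
  have hp : p.Prime := Fact.out
  let σ : Fin g → (A × Fin 3 → Bool) → ZMod p := fun j y =>
    ∑ T ∈ sup j, if tval T (merge (mrgB ρ) y) = true then coef j T else 0
  let σK : Fin g → (A × Fin 3 → Bool) → K := fun j y => ZMod.castHom (dvd_refl p) K (σ j y)
  have hσK : ∀ j, σK j ∈ J K θ := fun j => sum_deg ρ θ (sup j) (coef j) (hθ j)
  let ind : ∀ b : Fin g → ZMod p, Fin g → (A × Fin 3 → Bool) → K := fun b j =>
    1 - (σK j - fun _ => ZMod.castHom (dvd_refl p) K (b j)) ^ (p - 1)
  have hind : ∀ b j y, ind b j y = if σ j y = b j then 1 else 0 := by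
    intro b j y
    have h1 : ind b j y = ZMod.castHom (dvd_refl p) K (1 - (σ j y - b j) ^ (p - 1)) := by
      simp only [ind, σK, Pi.sub_apply, Pi.one_apply, Pi.pow_apply, map_sub, map_one, map_pow]
    rw [h1]
    by_cases h : σ j y = b j
    · rw [if_pos h, h, sub_self, zero_pow (by have := hp.two_le; omega), sub_zero, map_one]
    · rw [if_neg h, ZMod.pow_card_sub_one_eq_one (sub_ne_zero.mpr h), sub_self, map_zero]
  have hindJ : ∀ b j, ind b j ∈ J K ((p - 1) * θ) := by
    intro b j
    refine Submodule.sub_mem _ (J_one _) ?_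
    exact J_pow (Submodule.sub_mem _ (hσK j) (J_const _ _)) _
  let tt : (Fin g → ZMod p) → (A × Fin 3 → Bool) → K := fun b =>
    toK K (fun y => out (fun i => tval (τ i) (merge (mrgB ρ) y)) b)
  have htt : ∀ b, tt b ∈ J K (DD τ ρ) := by
    intro b
    refine junta_mem ((al ((univ.filter (fun i => okT (τ i) ρ)).biUnion τ) ρ).image
      (fun a => (a, (ρ a).1))) card_image_le ?_
    intro y z hyz
    have h1 : ∀ i, tval (τ i) (merge (mrgB ρ) y) = tval (τ i) (merge (mrgB ρ) z) := by
      intro i
      by_cases hok : okT (τ i) ρ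
      · apply tval_depends
        intro a ha
        apply hyz
        simp only [coe_image, Set.mem_image, mem_coe]
        refine ⟨a, ?_, rfl⟩
        simp only [al, mem_filter, mem_univ, true_and, pat, Bool.or_eq_true, decide_eq_true_eq,
          mem_biUnion] at ha ⊢
        rcases ha with h | h
        · exact Or.inl ⟨i, hok, h⟩
        · exact Or.inr ⟨i, hok, h⟩
      · rw [tval_dead _ _ hok, tval_dead _ _ hok]
    simp only [tt, toK, h1]
  have heq : toK K (fun y : A × Fin 3 → Bool => out (fun i => tval (τ i) (merge (mrgB ρ) y))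
      (fun j => ∑ T ∈ sup j, if tval T (merge (mrgB ρ) y) = true then coef j T else 0)) =
      ∑ b : Fin g → ZMod p, tt b * ∏ j, ind b j := by
    funext y
    rw [Finset.sum_apply, Finset.sum_eq_single (fun j => σ j y)]
    · rw [Pi.mul_apply, Finset.prod_apply, Finset.prod_eq_one, mul_one]
      · rfl
      · intro j _
        exact (hind (fun j => σ j y) j y).trans (if_pos rfl)
    · intro b _ hb
      have : ∃ j, σ j y ≠ b j := by
        by_contra hcon
        push Not at hcon
        exact hb (funext fun j => (hcon j).symm)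
      obtain ⟨j, hj⟩ := this
      rw [Pi.mul_apply, Finset.prod_apply, Finset.prod_eq_zero (mem_univ j), mul_zero]
      exact (hind b j y).trans (if_neg hj)
    · intro h; exact absurd (mem_univ _) h
  rw [heq]
  refine Submodule.sum_mem _ (fun b _ => J_mul (htt b) ?_)
  have h1 := J_prod (K := K) (univ : Finset (Fin g)) (ind b) (fun _ => (p - 1) * θ)
    (fun j _ => hindJ b j)
  simpa using h1

end

end Pool.Agent.Helper600R2
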