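import Pool.Agent.Helper600R2.Lift

/-!
Block restrictions: in every block of three variables exactly one stays alive.
-/

set_option linter.unusedSectionVars false

namespace Pool.Agent.Helper600R2

open Finset

/-- states of a block: the alive position and the values of the other ones -/
abbrev St : Type := Fin 3 × (Fin 3 → Bool)

/-- whether the literals `B` of a block are not falsified -/
def okB (B : Fin 3 → Bool → Bool) (σ : St) : Bool :=
  decide (∀ j s, B j s = true → (j = σ.1 ∨ σ.2 j = s))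

/-- weight of a block -/
def gB (B : Fin 3 → Bool → Bool) (σ : St) : ℕ :=
  if okB B σ = true then (if (B σ.1 true || B σ.1 false) = true then 2 else 1) else 0

/-- admissible values of the `j`-th variable of a block, if the `a`-th one is alive -/
def oB (B : Fin 3 → Bool → Bool) (a j : Fin 3) (b : Bool) : ℕ :=
  if j = a then 1 else if B j (!b) = true then 0 else 1

lemma okB_prod (B : Fin 3 → Bool → Bool) (a : Fin 3) (f : Fin 3 → Bool) :
    (if okB B (a, f) = true then 1 else 0) = ∏ j, oB B a j (f j) := by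
  by_cases h : okB B (a, f) = true
  · rw [if_pos h, Finset.prod_eq_one]
    intro j _
    simp only [okB, decide_eq_true_eq] at h
    by_cases hj : j = a
    · simp [oB, hj]
    · rw [oB, if_neg hj, if_neg]
      intro hB
      rcases h j _ hB with h1 | h1
      · exact hj h1
      · cases hf : f j <;> simp [hf] at h1
  · rw [if_neg h]
    simp only [okB, decide_eq_true_eq, not_forall] at h
    obtain ⟨j, s, hB, h1⟩ := h
    push Not at h1
    symm
    refine Finset.prod_eq_zero (mem_univ j) ?_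
    rw [oB, if_neg h1.1, if_pos]
    have h2 : (!f j) = s := by
      cases hf : f j <;> cases s <;> simp [hf] at h1 ⊢
    rw [h2]
    exact hB

lemma okB_count (B : Fin 3 → Bool → Bool) (a : Fin 3) :
    ∑ f : Fin 3 → Bool, (if okB B (a, f) = true then 1 else 0) =
      (oB B a 0 true + oB B a 0 false) * (oB B a 1 true + oB B a 1 false) *
        (oB B a 2 true + oB B a 2 false) := by
  simp only [okB_prod]
  have h := Finset.prod_univ_sum (fun _ : Fin 3 => (univ : Finset Bool)) (fun j b => oB B a j b)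
  rw [Fintype.piFinset_univ] at h
  rw [← h, Fin.prod_univ_three]
  simp only [Fintype.sum_bool]

lemma sum_gB (B : Fin 3 → Bool → Bool) : ∑ σ : St, gB B σ ≤ 24 := by
  have h1 : ∀ a : Fin 3, ∑ f : Fin 3 → Bool, gB B (a, f) =
      (if (B a true || B a false) = true then 2 else 1) *
        ((oB B a 0 true + oB B a 0 false) * (oB B a 1 true + oB B a 1 false) *
        (oB B a 2 true + oB B a 2 false)) := by
    intro a
    rw [← okB_count, Finset.mul_sum]
    refine Finset.sum_congr rfl (fun f _ => ?_)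
    simp only [gB]
    split_ifs <;> simp
  rw [Fintype.sum_prod_type]
  simp only [h1, Fin.sum_univ_three, oB, Bool.not_true, Bool.not_false]
  generalize B 0 true = b0
  generalize B 0 false = b1
  generalize B 1 true = b2
  generalize B 1 false = b3
  generalize B 2 true = b4
  generalize B 2 false = b5
  revert b0 b1 b2 b3 b4 b5
  decide

lemma sum_okB (B : Fin 3 → Bool → Bool) (h : ∃ j s, B j s = true) :
    ∑ σ : St, (if okB B σ = true then 1 else 0) ≤ 16 := by
  rw [Fintype.sum_prod_type]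
  simp only [okB_count, Fin.sum_univ_three, oB, Bool.not_true, Bool.not_false]
  have h' : (B 0 true || B 0 false || B 1 true || B 1 false || B 2 true || B 2 false) = true := by
    obtain ⟨j, s, hjs⟩ := h
    fin_cases j <;> cases s <;> simp at hjs <;> simp [hjs]
  clear h
  revert h'
  generalize B 0 true = b0
  generalize B 0 false = b1
  generalize B 1 true = b2
  generalize B 1 false = b3
  generalize B 2 true = b4
  generalize B 2 false = b5
  revert b0 b1 b2 b3 b4 b5
  decide

lemma sum_okB' (B : Fin 3 → Bool → Bool) :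
    ∑ σ : St, (if okB B σ = true then 1 else 0) ≤ 24 := by
  refine (Finset.sum_le_sum (g := fun _ => 1) (fun σ _ => ?_)).trans ?_
  · split_ifs <;> simp
  · rw [Finset.sum_const, Finset.card_univ, Fintype.card_prod, Fintype.card_fun, Fintype.card_fin,
      Fintype.card_bool]
    norm_num

section

variable {A : Type*} [Fintype A] [DecidableEq A]

/-- the pattern of a set of literals in a block -/
def pat (U : Finset ((A × Fin 3) × Bool)) (a : A) : Fin 3 → Bool → Bool :=
  fun j s => decide (((a, j), s) ∈ U)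

/-- the set of literals is not falsified -/
def okT (U : Finset ((A × Fin 3) × Bool)) (ρ : A → St) : Prop :=
  ∀ a, okB (pat U a) (ρ a) = true

instance (U : Finset ((A × Fin 3) × Bool)) (ρ : A → St) : Decidable (okT U ρ) := by
  unfold okT; infer_instance

/-- blocks whose alive variable occurs in the set of literals -/
def al (U : Finset ((A × Fin 3) × Bool)) (ρ : A → St) : Finset A :=
  univ.filter (fun a => (pat U a (ρ a).1 true || pat U a (ρ a).1 false) = true)

lemma prod_gB (U : Finset ((A × Fin 3) × Bool)) (ρ : A → St) :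
    ∏ a, gB (pat U a) (ρ a) = if okT U ρ then 2 ^ (al U ρ).card else 0 := by
  by_cases h : okT U ρ
  · rw [if_pos h]
    have h1 : ∀ a, gB (pat U a) (ρ a) =
        if (pat U a (ρ a).1 true || pat U a (ρ a).1 false) = true then 2 else 1 := by
      intro a
      rw [gB, if_pos (h a)]
    simp only [h1]
    rw [Finset.prod_ite]
    simp only [Finset.prod_const, one_pow, mul_one]
    rfl
  · rw [if_neg h]
    simp only [okT, not_forall] at h
    obtain ⟨a, ha⟩ := h
    refine Finset.prod_eq_zero (mem_univ a) ?_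
    rw [gB, if_neg ha]

lemma sum_prod_St (F : A → St → ℕ) :
    ∑ ρ : A → St, ∏ a, F a (ρ a) = ∏ a, ∑ σ, F a σ := by
  classical
  have h := Finset.prod_univ_sum (fun _ : A => (univ : Finset St)) (fun v s => F v s)
  rw [Fintype.piFinset_univ] at h
  exact h.symm

lemma sum_ok_pow (U : Finset ((A × Fin 3) × Bool)) :
    ∑ ρ : A → St, (if okT U ρ then 2 ^ (al U ρ).card else 0) ≤ 24 ^ Fintype.card A := by
  simp only [← prod_gB]
  rw [sum_prod_St (fun a σ => gB (pat U a) σ)]
  calc ∏ a, ∑ σ, gB (pat U a) σ ≤ ∏ _a : A, 24 :=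
        Finset.prod_le_prod' (fun a _ => sum_gB _)
    _ = _ := by rw [Finset.prod_const, Finset.card_univ]

/-- number of alive variables in the surviving sets of literals -/
def DD {s : ℕ} (τ : Fin s → Finset ((A × Fin 3) × Bool)) (ρ : A → St) : ℕ :=
  (al ((univ.filter (fun i => okT (τ i) ρ)).biUnion τ) ρ).card

lemma okT_biUnion {s : ℕ} (τ : Fin s → Finset ((A × Fin 3) × Bool)) (ρ : A → St)
    (S : Finset (Fin s)) : okT (S.biUnion τ) ρ ↔ ∀ i ∈ S, okT (τ i) ρ := by
  simp only [okT, okB, pat, decide_eq_true_eq, mem_biUnion]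
  constructor
  · intro h i hi a j s hs
    exact h a j s ⟨i, hi, hs⟩
  · rintro h a j s ⟨i, hi, hs⟩
    exact h i hi a j s hs

lemma sum_DD {s : ℕ} (τ : Fin s → Finset ((A × Fin 3) × Bool)) :
    ∑ ρ : A → St, 2 ^ (DD τ ρ) ≤ 2 ^ s * 24 ^ Fintype.card A := by
  classical
  have h1 : ∀ ρ : A → St, 2 ^ (DD τ ρ) ≤
      ∑ S : Finset (Fin s), (if okT (S.biUnion τ) ρ then 2 ^ (al (S.biUnion τ) ρ).card else 0) := by
    intro ρ
    have h2 : okT ((univ.filter (fun i => okT (τ i) ρ)).biUnion τ) ρ := by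
      rw [okT_biUnion]
      intro i hi
      exact (mem_filter.mp hi).2
    have h3 := Finset.single_le_sum (f := fun S : Finset (Fin s) =>
      (if okT (S.biUnion τ) ρ then 2 ^ (al (S.biUnion τ) ρ).card else 0))
      (fun _ _ => Nat.zero_le _) (mem_univ (univ.filter (fun i => okT (τ i) ρ)))
    rw [if_pos h2] at h3
    exact h3
  calc ∑ ρ : A → St, 2 ^ (DD τ ρ) ≤ ∑ ρ : A → St, ∑ S : Finset (Fin s),
        (if okT (S.biUnion τ) ρ then 2 ^ (al (S.biUnion τ) ρ).card else 0) :=
        Finset.sum_le_sum (fun ρ _ => h1 ρ)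
    _ = ∑ S : Finset (Fin s), ∑ ρ : A → St,
        (if okT (S.biUnion τ) ρ then 2 ^ (al (S.biUnion τ) ρ).card else 0) := Finset.sum_comm
    _ ≤ ∑ _S : Finset (Fin s), 24 ^ Fintype.card A :=
        Finset.sum_le_sum (fun S _ => sum_ok_pow _)
    _ = _ := by simp

/-- touched blocks -/
def touched (U : Finset ((A × Fin 3) × Bool)) : Finset A := U.image (fun l => l.1.1)

lemma card_le_touched (U : Finset ((A × Fin 3) × Bool)) : U.card ≤ 6 * (touched U).card := by
  have h1 : U ⊆ (touched U ×ˢ (univ : Finset (Fin 3 × Bool))).image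
      (fun z => ((z.1, z.2.1), z.2.2)) := by
    rintro ⟨⟨a, j⟩, s⟩ h
    simp only [mem_image, mem_product, mem_univ, and_true, touched]
    exact ⟨(a, (j, s)), ⟨((a, j), s), h, rfl⟩, rfl⟩
  refine (card_le_card h1).trans (card_image_le.trans ?_)
  rw [card_product]
  simp [mul_comm]

lemma card_okT (U : Finset ((A × Fin 3) × Bool)) :
    (∑ ρ : A → St, (if okT U ρ then 1 else 0)) * 3 ^ (touched U).card ≤
      2 ^ (touched U).card * 24 ^ Fintype.card A := by
  classical
  have h1 : ∀ ρ : A → St, (if okT U ρ then 1 else 0) =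
      ∏ a, (if okB (pat U a) (ρ a) = true then 1 else 0) := by
    intro ρ
    by_cases h : okT U ρ
    · rw [if_pos h, Finset.prod_eq_one]
      intro a _
      rw [if_pos (h a)]
    · rw [if_neg h]
      simp only [okT, not_forall] at h
      obtain ⟨a, ha⟩ := h
      rw [Finset.prod_eq_zero (mem_univ a)]
      rw [if_neg ha]
  simp only [h1]
  rw [sum_prod_St (fun a σ => if okB (pat U a) σ = true then 1 else 0)]
  have h2 : ∏ a, ∑ σ, (if okB (pat U a) σ = true then 1 else 0) ≤
      ∏ a, if a ∈ touched U then 16 else 24 := by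
    refine Finset.prod_le_prod' (fun a _ => ?_)
    by_cases ha : a ∈ touched U
    · rw [if_pos ha]
      apply sum_okB
      simp only [touched, mem_image] at ha
      obtain ⟨⟨⟨a', j⟩, s⟩, h, rfl⟩ := ha
      exact ⟨j, s, by simpa [pat] using h⟩
    · rw [if_neg ha]
      exact sum_okB' _
  have h3 : (∏ a, if a ∈ touched U then 16 else 24) * 3 ^ (touched U).card =
      2 ^ (touched U).card * 24 ^ Fintype.card A := by
    have h4 : (3 : ℕ) ^ (touched U).card = ∏ a : A, if a ∈ touched U then 3 else 1 := by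
      rw [Finset.prod_ite_mem]; simp
    have h5 : (2 : ℕ) ^ (touched U).card = ∏ a : A, if a ∈ touched U then 2 else 1 := by
      rw [Finset.prod_ite_mem]; simp
    have h6 : (24 : ℕ) ^ Fintype.card A = ∏ _a : A, 24 := by
      rw [Finset.prod_const, Finset.card_univ]
    rw [h4, h5, h6, ← Finset.prod_mul_distrib, ← Finset.prod_mul_distrib]
    refine Finset.prod_congr rfl (fun a _ => ?_)
    split_ifs <;> norm_num
  exact (Nat.mul_le_mul_right _ h2).trans h3.le

/-- The existence of a good block restriction. -/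
theorem exists_block {M : ℕ} (s : Fin M → ℕ)
    (τ : ∀ i, Fin (s i) → Finset ((A × Fin 3) × Bool))
    (W : Finset (Finset ((A × Fin 3) × Bool))) (S dt b : ℕ) (hs : ∀ i, s i ≤ S)
    (hW : ∀ U ∈ W, 6 * b ≤ U.card)
    (h1 : 2 * (M * 2 ^ S) < 2 ^ (dt + 1)) (h2 : 2 * (W.card * 2 ^ b) ≤ 3 ^ b) :
    ∃ ρ : A → St, (∀ i, DD (τ i) ρ ≤ dt) ∧ ∀ U ∈ W, ¬ okT U ρ := by
  classical
  by_contra hcon
  push Not at hcon
  have h3 : ∀ ρ : A → St, 3 ^ b * 2 ^ (dt + 1) ≤
      3 ^ b * ∑ i : Fin M, 2 ^ (DD (τ i) ρ) +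
      2 ^ (dt + 1) * ∑ U ∈ W, 3 ^ b * (if okT U ρ then 1 else 0) := by
    intro ρ
    by_cases h : ∀ i, DD (τ i) ρ ≤ dt
    · obtain ⟨U, hU, hok⟩ := hcon ρ h
      have h4 : 3 ^ b ≤ ∑ U ∈ W, 3 ^ b * (if okT U ρ then 1 else 0) := by
        calc 3 ^ b = 3 ^ b * (if okT U ρ then 1 else 0) := by rw [if_pos hok, mul_one]
          _ ≤ _ := Finset.single_le_sum (f := fun U => 3 ^ b * (if okT U ρ then 1 else 0))
              (fun _ _ => Nat.zero_le _) hU
      calc 3 ^ b * 2 ^ (dt + 1) = 2 ^ (dt + 1) * 3 ^ b := mul_comm _ _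
        _ ≤ 2 ^ (dt + 1) * ∑ U ∈ W, 3 ^ b * (if okT U ρ then 1 else 0) :=
            Nat.mul_le_mul_left _ h4
        _ ≤ _ := Nat.le_add_left _ _
    · push Not at h
      obtain ⟨i, hi⟩ := h
      have h4 : 2 ^ (dt + 1) ≤ ∑ i : Fin M, 2 ^ (DD (τ i) ρ) := by
        calc 2 ^ (dt + 1) ≤ 2 ^ (DD (τ i) ρ) := Nat.pow_le_pow_right (by norm_num) hi
          _ ≤ _ := Finset.single_le_sum (f := fun i => 2 ^ (DD (τ i) ρ))
              (fun _ _ => Nat.zero_le _) (mem_univ i)
      calc 3 ^ b * 2 ^ (dt + 1) ≤ 3 ^ b * ∑ i : Fin M, 2 ^ (DD (τ i) ρ) :=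
            Nat.mul_le_mul_left _ h4
        _ ≤ _ := Nat.le_add_right _ _
  have h4 := Finset.sum_le_sum (s := (univ : Finset (A → St))) (fun ρ _ => h3 ρ)
  rw [Finset.sum_const, Finset.card_univ, smul_eq_mul, Finset.sum_add_distrib,
    ← Finset.mul_sum, ← Finset.mul_sum, Finset.sum_comm,
    Finset.sum_comm (s := univ) (t := W)] at h4
  have hcard : Fintype.card (A → St) = 24 ^ Fintype.card A := by
    rw [Fintype.card_fun]; rfl
  rw [hcard] at h4
  have h5 : ∑ i : Fin M, ∑ ρ : A → St, 2 ^ (DD (τ i) ρ) ≤ M * 2 ^ S * 24 ^ Fintype.card A := by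
    calc _ ≤ ∑ _i : Fin M, 2 ^ S * 24 ^ Fintype.card A := by
          refine Finset.sum_le_sum (fun i _ => (sum_DD (τ i)).trans ?_)
          exact Nat.mul_le_mul_right _ (Nat.pow_le_pow_right (by norm_num) (hs i))
      _ = _ := by simp [mul_assoc]
  have h6 : ∑ U ∈ W, ∑ ρ : A → St, 3 ^ b * (if okT U ρ then 1 else 0) ≤
      W.card * 2 ^ b * 24 ^ Fintype.card A := by
    calc _ ≤ ∑ _U ∈ W, 2 ^ b * 24 ^ Fintype.card A := by
          refine Finset.sum_le_sum (fun U hU => ?_)
          rw [← Finset.mul_sum]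
          have h7 := card_okT U
          have h8 : b ≤ (touched U).card := by
            have := hW U hU
            have := card_le_touched U
            omega
          obtain ⟨t, ht⟩ := Nat.exists_eq_add_of_le h8
          rw [ht, pow_add, pow_add] at h7
          have h9 : (∑ ρ : A → St, (if okT U ρ then 1 else 0)) * 3 ^ b * 3 ^ t ≤
              2 ^ b * 24 ^ Fintype.card A * 3 ^ t := by
            calc _ = (∑ ρ : A → St, (if okT U ρ then 1 else 0)) * (3 ^ b * 3 ^ t) := by ring
              _ ≤ 2 ^ b * 2 ^ t * 24 ^ Fintype.card A := h7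
              _ ≤ 2 ^ b * 3 ^ t * 24 ^ Fintype.card A := by
                  apply Nat.mul_le_mul_right
                  apply Nat.mul_le_mul_left
                  exact Nat.pow_le_pow_left (by norm_num) t
              _ = _ := by ring
          have h10 := Nat.le_of_mul_le_mul_right h9 (by positivity)
          rw [mul_comm]
          exact h10
      _ = _ := by simp [mul_assoc]
  have hpos : 0 < 24 ^ Fintype.card A := by positivity
  have h7 : 24 ^ Fintype.card A * (3 ^ b * 2 ^ (dt + 1)) ≤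
      3 ^ b * (M * 2 ^ S * 24 ^ Fintype.card A) +
      2 ^ (dt + 1) * (W.card * 2 ^ b * 24 ^ Fintype.card A) :=
    h4.trans (Nat.add_le_add (Nat.mul_le_mul_left _ h5) (Nat.mul_le_mul_left _ h6))
  have h8 : 24 ^ Fintype.card A * (3 ^ b * 2 ^ (dt + 1)) ≤
      24 ^ Fintype.card A * (3 ^ b * (M * 2 ^ S) + 2 ^ (dt + 1) * (W.card * 2 ^ b)) := by
    calc _ ≤ _ := h7
      _ = _ := by ring
  have h9 := Nat.le_of_mul_le_mul_left h8 hpos
  have h10 : 2 * (3 ^ b * (M * 2 ^ S)) < 3 ^ b * 2 ^ (dt + 1) := by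
    calc 2 * (3 ^ b * (M * 2 ^ S)) = 3 ^ b * (2 * (M * 2 ^ S)) := by ring
      _ < 3 ^ b * 2 ^ (dt + 1) := Nat.mul_lt_mul_of_pos_left h1 (by positivity)
  have h11 : 2 * (2 ^ (dt + 1) * (W.card * 2 ^ b)) ≤ 3 ^ b * 2 ^ (dt + 1) := by
    calc _ = 2 ^ (dt + 1) * (2 * (W.card * 2 ^ b)) := by ring
      _ ≤ 2 ^ (dt + 1) * 3 ^ b := Nat.mul_le_mul_left _ h2
      _ = _ := mul_comm _ _
  omega

end

end Pool.Agent.Helper600R2
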