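import Pool.Agent.Helper600R2.Shrink

/-!
Calculus: choice of the parameters of the shrinkage theorem.
-/

set_option linter.unusedSectionVars false

namespace Pool.Agent.Helper600R2

open Finset Filter Topology

lemma neg_deriv_right {g : ℝ → ℝ} {g' a : ℝ} (h : HasDerivAt g g' a) (hneg : g' < 0) :
    ∃ ε > 0, ∀ u, a ≤ u → u ≤ a + ε → g u ≤ g a := by
  have h1 := (hasDerivAt_iff_tendsto_slope.mp h).eventually (eventually_lt_nhds hneg)
  rw [eventually_nhdsWithin_iff] at h1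
  obtain ⟨ε, hε, hball⟩ := Metric.eventually_nhds_iff.mp h1
  refine ⟨ε / 2, by linarith, fun u hu1 hu2 => ?_⟩
  rcases eq_or_lt_of_le hu1 with heq | hlt
  · rw [heq]
  · have h2 := hball (y := u) (by rw [Real.dist_eq, abs_of_pos (by linarith)]; linarith)
      (by simpa using hlt.ne')
    rw [slope_def_field] at h2
    have h3 : 0 < u - a := by linarith
    have h4 : g u - g a < 0 := by
      by_contra hcon
      push Not at hcon
      have := div_nonneg hcon h3.le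
      linarith
    linarith

lemma neg_deriv_left {g : ℝ → ℝ} {g' a : ℝ} (h : HasDerivAt g g' a) (hneg : g' < 0) :
    ∃ ε > 0, ∀ u, a - ε ≤ u → u < a → g a < g u := by
  have h1 := (hasDerivAt_iff_tendsto_slope.mp h).eventually (eventually_lt_nhds hneg)
  rw [eventually_nhdsWithin_iff] at h1
  obtain ⟨ε, hε, hball⟩ := Metric.eventually_nhds_iff.mp h1
  refine ⟨ε / 2, by linarith, fun u hu1 hu2 => ?_⟩
  have h2 := hball (y := u) (by rw [Real.dist_eq, abs_of_neg (by linarith)]; linarith)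
    (by simpa using hu2.ne)
  rw [slope_def_field] at h2
  have h3 : u - a < 0 := by linarith
  by_contra hcon
  push Not at hcon
  have := div_nonneg_of_nonpos (by linarith : g u - g a ≤ 0) h3.le
  linarith

/-- for every `γ < 3/2` there is a keep probability `κ` for which one stage multiplies the
potential by `κ ^ γ`. -/
lemma exists_kappa {γ : ℝ} (hγ : γ < 3 / 2) :
    ∃ κ : ℝ, 0 < κ ∧ κ < 1 ∧ ∃ u0 : ℝ, 0 < u0 ∧
      ∀ u, 0 ≤ u → u ≤ u0 → κ * Real.exp ((1 - κ ^ γ) * u) +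
      (1 - κ) / 2 * (Real.exp (-(κ ^ γ * u)) + Real.exp (-(2 * (κ ^ γ * u)))) ≤ 1 := by
  have hd : HasDerivAt (fun κ : ℝ => κ ^ γ * (3 - κ) - 2 * κ)
      (γ * (1 : ℝ) ^ (γ - 1) * (3 - 1) + (1 : ℝ) ^ γ * (0 - 1) - 2 * 1) 1 := by
    have h1 : HasDerivAt (fun κ : ℝ => κ ^ γ) (γ * (1 : ℝ) ^ (γ - 1)) 1 :=
      Real.hasDerivAt_rpow_const (Or.inl one_ne_zero)
    have h2 : HasDerivAt (fun κ : ℝ => 3 - κ) (0 - 1) 1 :=
      (hasDerivAt_const (1 : ℝ) (3 : ℝ)).sub (hasDerivAt_id (1 : ℝ))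
    have h3 : HasDerivAt (fun κ : ℝ => 2 * κ) (2 * 1) 1 := (hasDerivAt_id (1 : ℝ)).const_mul 2
    exact (h1.mul h2).sub h3
  have hneg : γ * (1 : ℝ) ^ (γ - 1) * (3 - 1) + (1 : ℝ) ^ γ * (0 - 1) - 2 * 1 < 0 := by
    rw [Real.one_rpow, Real.one_rpow]; linarith
  obtain ⟨ε, hε, h⟩ := neg_deriv_left hd hneg
  set κ : ℝ := max (1 - ε) (1 / 2) with hκ
  have hκ0 : 0 < κ := lt_of_lt_of_le (by norm_num) (le_max_right _ _)
  have hκ1 : κ < 1 := max_lt (by linarith) (by norm_num)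
  have h4 := h κ (le_max_left _ _) hκ1
  simp only [Real.one_rpow] at h4
  refine ⟨κ, hκ0, hκ1, ?_⟩
  set θ := κ ^ γ with hθ
  have hg : HasDerivAt (fun u : ℝ => κ * Real.exp ((1 - θ) * u) +
      (1 - κ) / 2 * (Real.exp (-(θ * u)) + Real.exp (-(2 * (θ * u)))))
      (κ * (Real.exp ((1 - θ) * 0) * ((1 - θ) * 1)) +
      (1 - κ) / 2 * (Real.exp (-(θ * 0)) * (-(θ * 1)) +
        Real.exp (-(2 * (θ * 0))) * (-(2 * (θ * 1))))) 0 := by
    have e1 : HasDerivAt (fun u : ℝ => (1 - θ) * u) ((1 - θ) * 1) 0 :=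
      (hasDerivAt_id (0 : ℝ)).const_mul _
    have e2 : HasDerivAt (fun u : ℝ => -(θ * u)) (-(θ * 1)) 0 :=
      ((hasDerivAt_id (0 : ℝ)).const_mul _).neg
    have e3 : HasDerivAt (fun u : ℝ => -(2 * (θ * u))) (-(2 * (θ * 1))) 0 :=
      (((hasDerivAt_id (0 : ℝ)).const_mul θ).const_mul 2).neg
    exact (e1.exp.const_mul κ).add ((e2.exp.add e3.exp).const_mul _)
  obtain ⟨u0, hu0, hu⟩ := neg_deriv_right hg (by
    simp only [mul_zero, neg_zero, Real.exp_zero]
    linarith)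
  refine ⟨u0, hu0, fun u h0 h1 => ?_⟩
  have := hu u h0 (by linarith)
  simp only [mul_zero, neg_zero, Real.exp_zero] at this
  refine this.trans (le_of_eq ?_)
  ring

end Pool.Agent.Helper600R2
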