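import Pool.Agent.Helper600R2.Lift

/-!
De Morgan formulas with literal leaves and special leaves of bounded degree, and the
one-variable simplification lemma.
-/

set_option linter.unusedSectionVars false

namespace Pool.Agent.Helper600R2

open Finset

variable {V : Type*} [Fintype V] [DecidableEq V] (K : Type*) [Field K]

/-- `Comp K L S f`: the Boolean function `f` is computed by a De Morgan formula with `L v` leaves
labelled by the variable `v`, and with further leaves that are Boolean functions of positive
degree bounds (over `K`) adding up to `S`. -/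
inductive Comp : (V → ℕ) → ℕ → ((V → Bool) → Bool) → Prop
  | const (b : Bool) : Comp 0 0 (fun _ => b)
  | var (v : V) : Comp (Pi.single v 1) 0 (fun x => x v)
  | sp (d : ℕ) (g : (V → Bool) → Bool) (hd : 1 ≤ d) (hg : toK K g ∈ J K d) : Comp 0 d g
  | neg {L : V → ℕ} {S : ℕ} {f : (V → Bool) → Bool} (h : Comp L S f) : Comp L S (fun x => !f x)
  | and {L L' : V → ℕ} {S S' : ℕ} {f g : (V → Bool) → Bool} (h : Comp L S f)
      (h' : Comp L' S' g) : Comp (L + L') (S + S') (fun x => f x && g x)

variable {K}

/-- total size -/
def tot (L : V → ℕ) (S : ℕ) : ℕ := ∑ v, L v + S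

lemma tot_add (L L' : V → ℕ) (S S' : ℕ) : tot (L + L') (S + S') = tot L S + tot L' S' := by
  simp only [tot, Pi.add_apply, Finset.sum_add_distrib]; ring

lemma tot_single (x : V) : tot (Pi.single x 1) 0 = 1 := by
  simp [tot, Finset.sum_pi_single']

lemma Comp.const_of_tot {L : V → ℕ} {S : ℕ} {f : (V → Bool) → Bool} (h : Comp K L S f)
    (h0 : tot L S = 0) : ∃ b, ∀ y, f y = b := by
  induction h with
  | const b => exact ⟨b, fun _ => rfl⟩
  | var v => rw [tot_single] at h0; exact absurd h0 one_ne_zero
  | sp d g hd hg =>
    simp only [tot] at h0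
    omega
  | neg h ih =>
    obtain ⟨b, hb⟩ := ih h0
    exact ⟨!b, fun y => by simp only [hb]⟩
  | and h h' ih ih' =>
    rw [tot_add] at h0
    obtain ⟨b, hb⟩ := ih (by omega)
    obtain ⟨b', hb'⟩ := ih' (by omega)
    exact ⟨b && b', fun y => by simp only [hb, hb']⟩

lemma Comp.degree {L : V → ℕ} {S : ℕ} {f : (V → Bool) → Bool} (h : Comp K L S f) :
    toK K f ∈ J K (tot L S) := by
  induction h with
  | const b => exact J_const _ _
  | var v =>
    rw [tot_single]
    refine junta_mem {v} (by simp) ?_
    intro x y hxy
    have := hxy v (by simp)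
    simp [toK, this]
  | sp d g hd hg => simpa [tot] using hg
  | neg h ih =>
    rw [toK_not]
    exact Submodule.sub_mem _ (J_one _) ih
  | and h h' ih ih' =>
    rw [toK_and, tot_add]
    exact J_mul ih ih'

/-- first alternative: the function is the variable `x` or its negation -/
def Bare (L : V → ℕ) (f : (V → Bool) → Bool) (x : V) : Prop :=
  (∃ c : Bool, ∀ y : V → Bool, f y = (y x == c)) ∧ 1 ≤ L x

/-- second alternative: simplified formulas -/
def Simp (K : Type*) [Field K] (L : V → ℕ) (S : ℕ) (f : (V → Bool) → Bool) (x : V) : Prop :=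
  ∃ (L' : V → ℕ) (S' : ℕ) (k : Bool → ℕ) (Lb : Bool → V → ℕ) (Sb : Bool → ℕ),
    Comp K L' S' f ∧ (∀ v, L' v ≤ L v) ∧ S' ≤ S ∧ L' x ≤ k false + k true ∧
    ∀ b, Comp K (Lb b) (Sb b) (fun y => f (Function.update y x b)) ∧ Lb b x = 0 ∧
      (∀ v, Lb b v ≤ L' v) ∧ Sb b ≤ S' ∧ tot (Lb b) (Sb b) + L' x + k b ≤ tot L' S'

lemma side {L : V → ℕ} {S : ℕ} {g : (V → Bool) → Bool} {x : V}
    (h : Bare L g x ∨ Simp K L S g x) (c : Bool) :
    ∃ (Lc : V → ℕ) (Sc : ℕ), Comp K Lc Sc (fun y => g (Function.update y x c)) ∧ Lc x = 0 ∧
      (∀ v, Lc v ≤ L v) ∧ Sc ≤ S := by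
  rcases h with ⟨⟨c', hc'⟩, _⟩ | ⟨L', S', k, Lb, Sb, h1, h2, h3, h4, h5⟩
  · refine ⟨0, 0, ?_, rfl, fun v => Nat.zero_le _, Nat.zero_le _⟩
    have : (fun y : V → Bool => g (Function.update y x c)) = fun _ => (c == c') := by
      funext y
      rw [hc']
      simp
    rw [this]
    exact Comp.const _
  · obtain ⟨h6, h7, h8, h9, _⟩ := h5 c
    exact ⟨Lb c, Sb c, h6, h7, fun v => (h8 v).trans (h2 v), h9.trans h3⟩

lemma comp_lit (x : V) (c : Bool) : Comp K (Pi.single x 1) 0 (fun y : V → Bool => (y x == c)) := by
  cases c
  · have : (fun y : V → Bool => (y x == false)) = fun y => !(y x) := by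
      funext y; cases y x <;> rfl
    rw [this]
    exact Comp.neg (Comp.var x)
  · have : (fun y : V → Bool => (y x == true)) = fun y => y x := by
      funext y; cases y x <;> rfl
    rw [this]
    exact Comp.var x

lemma and_bare {L L₂ : V → ℕ} {S S₂ : ℕ} {f g : (V → Bool) → Bool} {x : V}
    (hf : Bare L f x) (hg : Bare L₂ g x ∨ Simp K L₂ S₂ g x) :
    Bare (L + L₂) (fun y => f y && g y) x ∨
      Simp K (L + L₂) (S + S₂) (fun y => f y && g y) x := by
  obtain ⟨⟨c, hc⟩, hL⟩ := hf
  obtain ⟨Lc, Sc, h1, h2, h3, h4⟩ := side hg c
  have key : ∀ y : V → Bool, (f y && g y) = ((y x == c) && g (Function.update y x c)) := by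
    intro y
    rw [hc]
    by_cases hy : y x = c
    · have : Function.update y x c = y := by rw [← hy]; exact Function.update_eq_self x y
      rw [this]
    · have : (y x == c) = false := by simpa using hy
      rw [this]; rfl
  by_cases ht : tot Lc Sc = 0
  · obtain ⟨b, hb⟩ := h1.const_of_tot ht
    cases b
    · right
      refine ⟨0, 0, fun _ => 0, fun _ => 0, fun _ => 0, ?_, fun v => Nat.zero_le _,
        Nat.zero_le _, by simp, ?_⟩
      · have : (fun y => f y && g y) = fun _ => false := by
          funext y
          rw [key, hb y, Bool.and_false]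
        rw [this]
        exact Comp.const _
      · intro b
        refine ⟨?_, rfl, fun v => le_rfl, le_rfl, by simp⟩
        have : (fun y => (f (Function.update y x b) && g (Function.update y x b))) =
            fun _ => false := by
          funext y
          rw [key, hb, Bool.and_false]
        rw [this]
        exact Comp.const _
    · left
      refine ⟨⟨c, fun y => ?_⟩, ?_⟩
      · show (f y && g y) = _
        rw [key, hb y, Bool.and_true]
      · simp only [Pi.add_apply]; omega
  · right
    refine ⟨Pi.single x 1 + Lc, 0 + Sc, fun b => if b = c then 0 else 1,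
      fun b => if b = c then Lc else 0, fun b => if b = c then Sc else 0, ?_, ?_, ?_, ?_, ?_⟩
    · have : (fun y => f y && g y) =
          fun y => ((y x == c) && g (Function.update y x c)) := funext key
      rw [this]
      exact Comp.and (comp_lit x c) h1
    · intro v
      simp only [Pi.add_apply]
      have h5 : (Pi.single x 1 : V → ℕ) v ≤ L v := by
        by_cases hv : v = x
        · subst hv; simpa using hL
        · simp [Pi.single_eq_of_ne hv]
      have := h3 v
      omega
    · omega
    · simp only [Pi.add_apply, Pi.single_eq_same, h2]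
      cases c <;> simp
    · intro b
      by_cases hbc : b = c
      · subst hbc
        simp only [if_true, tot_add, tot_single, Pi.add_apply, Pi.single_eq_same, h2]
        refine ⟨?_, trivial, fun v => by omega, by omega, by omega⟩
        have : (fun y => (f (Function.update y x b) && g (Function.update y x b))) =
            fun y => g (Function.update y x b) := by
          funext y
          rw [key]
          simp
        rw [this]
        exact h1
      · simp only [if_neg hbc, tot_add, tot_single, Pi.add_apply, Pi.single_eq_same, h2]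
        refine ⟨?_, rfl, fun v => Nat.zero_le _, by omega, ?_⟩
        · have : (fun y => (f (Function.update y x b) && g (Function.update y x b))) =
              fun _ => false := by
            funext y
            rw [key]
            have hne : ((Function.update y x b) x == c) = false := by
              rw [Function.update_self]
              simpa using hbc
            rw [hne, Bool.false_and]
          rw [this]
          exact Comp.const _
        · have : tot (0 : V → ℕ) 0 = 0 := by simp [tot]
          rw [this]
          omega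

/-- the one-variable simplification lemma -/
lemma Comp.simplify {L : V → ℕ} {S : ℕ} {f : (V → Bool) → Bool} (h : Comp K L S f) (x : V) :
    Bare L f x ∨ Simp K L S f x := by
  induction h with
  | const b =>
    right
    refine ⟨0, 0, fun _ => 0, fun _ => 0, fun _ => 0, Comp.const b, fun v => le_rfl, le_rfl,
      by simp, fun b' => ⟨Comp.const b, rfl, fun v => le_rfl, le_rfl, by simp⟩⟩
  | var v =>
    by_cases hv : v = x
    · left
      subst hv
      refine ⟨⟨true, fun y => ?_⟩, by simp⟩
      cases h : y v <;> simp [h]
    · right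
      have hv' : x ≠ v := fun h => hv h.symm
      refine ⟨Pi.single v 1, 0, fun _ => 0, fun _ => Pi.single v 1, fun _ => 0, Comp.var v,
        fun v => le_rfl, le_rfl, by simp [Pi.single_eq_of_ne hv'], fun b' => ⟨?_, ?_, fun v => le_rfl,
          le_rfl, ?_⟩⟩
      · have : (fun y : V → Bool => (Function.update y x b') v) = fun y => y v := by
          funext y
          rw [Function.update_of_ne hv]
        rw [this]
        exact Comp.var v
      · simp [Pi.single_eq_of_ne hv']
      · simp [Pi.single_eq_of_ne hv']
  | sp d g hd hg =>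
    right
    refine ⟨0, d, fun _ => 0, fun _ => 0, fun _ => d, Comp.sp d g hd hg, fun v => le_rfl, le_rfl,
      by simp, fun b' => ⟨Comp.sp d _ hd ?_, rfl, fun v => le_rfl, le_rfl, by simp⟩⟩
    refine J_comp_self hg (fun y => Function.update y x b') ?_
    intro i y z hyz
    by_cases hi : i = x
    · subst hi; simp
    · simp [Function.update_of_ne hi, hyz]
  | neg h ih =>
    rcases ih with ⟨⟨c, hc⟩, hL⟩ | ⟨L', S', k, Lb, Sb, h1, h2, h3, h4, h5⟩
    · left
      refine ⟨⟨!c, fun y => ?_⟩, hL⟩
      simp only [hc]
      cases y x <;> cases c <;> rfl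
    · right
      refine ⟨L', S', k, Lb, Sb, Comp.neg h1, h2, h3, h4, fun b => ?_⟩
      obtain ⟨h6, h7⟩ := h5 b
      exact ⟨Comp.neg h6, h7⟩
  | @and L₁ L₂ S₁ S₂ f g h h' ih ih' =>
    rcases ih with hb | hs
    · exact and_bare hb ih'
    · rcases ih' with hb' | hs'
      · have := and_bare (K := K) (S := S₂) (S₂ := S₁) hb' (Or.inr hs)
        have hcomm : (fun y => g y && f y) = (fun y => f y && g y) := by
          funext y; exact Bool.and_comm _ _
        rw [hcomm, add_comm L₂ L₁, add_comm S₂ S₁] at this
        exact this
      · right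
        obtain ⟨L', S', k, Lb, Sb, h1, h2, h3, h4, h5⟩ := hs
        obtain ⟨L'', S'', k', Lb', Sb', h1', h2', h3', h4', h5'⟩ := hs'
        refine ⟨L' + L'', S' + S'', fun b => k b + k' b, fun b => Lb b + Lb' b,
          fun b => Sb b + Sb' b, Comp.and h1 h1', ?_, by omega, ?_, ?_⟩
        · intro v
          simp only [Pi.add_apply]
          have := h2 v
          have := h2' v
          omega
        · simp only [Pi.add_apply]
          omega
        · intro b
          obtain ⟨a1, a2, a3, a4, a5⟩ := h5 b
          obtain ⟨b1, b2, b3, b4, b5⟩ := h5' b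
          refine ⟨Comp.and a1 b1, ?_, ?_, Nat.add_le_add a4 b4, ?_⟩
          · simp only [Pi.add_apply, a2, b2]
          · intro v
            simp only [Pi.add_apply]
            have := a3 v
            have := b3 v
            omega
          · rw [tot_add, tot_add]
            simp only [Pi.add_apply]
            omega

end Pool.Agent.Helper600R2
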