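import Pool.Agent.Helper600R2.Calc

/-!
Existence of a restriction that leaves a variable of each block alive and makes all given
formulas of small degree.
-/

set_option linter.unusedSectionVars false

namespace Pool.Agent.Helper600R2

open Finset Filter Topology

lemma sum_prod_pi {I A : Type*} [Fintype I] [DecidableEq I] [Fintype A] (F : I → A → ℝ) :
    ∑ ρ : I → A, ∏ i, F i (ρ i) = ∏ i, ∑ a, F i a := by
  classical
  have h := Finset.prod_univ_sum (fun _ : I => (univ : Finset A)) (fun v s => F v s)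
  rw [Fintype.piFinset_univ] at h
  exact h.symm

lemma block_sum (m : ℕ) (p : Bool × Bool → ℝ) (hp : ∑ s, p s = 1) :
    ∑ s : Fin m → Bool × Bool, (∏ j, p (s j)) * (if ∃ j, (s j).1 = true then 1 else 0) =
      1 - (∑ s, if s.1 = true then 0 else p s) ^ m := by
  have h1 : ∀ s : Fin m → Bool × Bool,
      (∏ j, p (s j)) * (if ∃ j, (s j).1 = true then (1 : ℝ) else 0) =
      (∏ j, p (s j)) - ∏ j, (if (s j).1 = true then 0 else p (s j)) := by
    intro s
    by_cases h : ∃ j, (s j).1 = true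
    · obtain ⟨j, hj⟩ := h
      have h0 : ∏ j, (if (s j).1 = true then 0 else p (s j)) = 0 :=
        Finset.prod_eq_zero (mem_univ j) (by simp [hj])
      rw [if_pos ⟨j, hj⟩, h0]
      ring
    · rw [if_neg h]
      push Not at h
      have : ∏ j, (if (s j).1 = true then 0 else p (s j)) = ∏ j, p (s j) :=
        Finset.prod_congr rfl (fun j _ => by simp [h j])
      rw [this]; ring
  simp only [h1]
  rw [Finset.sum_sub_distrib, sum_prod_pi (fun _ : Fin m => p),
    sum_prod_pi (fun _ : Fin m => fun s => if s.1 = true then 0 else p s)]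
  simp [hp]

lemma EE_alive {E : Type*} [Fintype E] [DecidableEq E] (r m : ℕ) (κ : ℝ) (T : ℕ) :
    EE (fun _ : E × Fin r × Fin m => wt κ T)
      (fun ρ => if ∀ e t, ∃ j, (ρ (e, t, j)).1 = true then 1 else 0) =
      ((1 - (1 - κ ^ T) ^ m) ^ r) ^ Fintype.card E := by
  classical
  have hdead : (∑ s, if s.1 = true then 0 else wt κ T s) = 1 - κ ^ T := by
    simp only [wt, Fintype.sum_prod_type, Fintype.sum_bool, if_true, Bool.false_eq_true,
      if_false]
    ring
  unfold EE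
  rw [Fintype.sum_equiv (Equiv.curry E (Fin r × Fin m) (Bool × Bool)) _
    (fun σ => ∏ e, ((∏ a, wt κ T (σ e a)) *
      (if ∀ t, ∃ j, (σ e (t, j)).1 = true then (1 : ℝ) else 0)))]
  · rw [sum_prod_pi (fun _ : E => fun σ : Fin r × Fin m → Bool × Bool =>
      (∏ a, wt κ T (σ a)) * (if ∀ t, ∃ j, (σ (t, j)).1 = true then (1 : ℝ) else 0))]
    rw [Finset.prod_const, Finset.card_univ]
    congr 1
    rw [Fintype.sum_equiv (Equiv.curry (Fin r) (Fin m) (Bool × Bool)) _
      (fun σ => ∏ t, ((∏ j, wt κ T (σ t j)) *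
        (if ∃ j, (σ t j).1 = true then (1 : ℝ) else 0)))]
    · rw [sum_prod_pi (fun _ : Fin r => fun σ : Fin m → Bool × Bool =>
        (∏ j, wt κ T (σ j)) * (if ∃ j, (σ j).1 = true then (1 : ℝ) else 0))]
      rw [Finset.prod_const, Finset.card_univ, Fintype.card_fin]
      congr 1
      rw [block_sum m _ (wt_sum κ T), hdead]
    · intro σ
      rw [Fintype.prod_prod_type, Finset.prod_mul_distrib]
      congr 1
      by_cases h : ∀ t, ∃ j, (σ (t, j)).1 = true
      · rw [if_pos h, Finset.prod_eq_one]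
        intro t _
        exact if_pos (h t)
      · rw [if_neg h]
        push Not at h
        obtain ⟨t, ht⟩ := h
        rw [Finset.prod_eq_zero (i := t) (mem_univ _)]
        apply if_neg
        push Not
        exact ht
  · intro σ
    rw [Fintype.prod_prod_type, Finset.prod_mul_distrib]
    congr 1
    show (if ∀ e t, ∃ j, (σ (e, t, j)).1 = true then (1 : ℝ) else 0) = _
    by_cases h : ∀ e t, ∃ j, (σ (e, t, j)).1 = true
    · rw [if_pos h, Finset.prod_eq_one]
      intro e _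
      exact if_pos (h e)
    · rw [if_neg h]
      push Not at h
      obtain ⟨e, t, ht⟩ := h
      rw [Finset.prod_eq_zero (i := e) (mem_univ _)]
      apply if_neg
      push Not
      exact ⟨t, ht⟩

lemma exists_good {V : Type*} [Fintype V] [DecidableEq V] {K : Type*} [Field K] {κ : ℝ}
    (hκ0 : 0 ≤ κ) (hκ1 : κ ≤ 1) (T M : ℕ) (ψ : Fin M → (V → Bool) → Bool) (B : ℝ)
    (hB : ∀ i, GG κ (fun _ => T) (toK K (ψ i)) ≤ B) (ev : (V → Bool × Bool) → Prop)
    [DecidablePred ev] (PE : ℝ)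
    (hPE : PE ≤ EE (fun _ : V => wt κ T) (fun ρ => if ev ρ then 1 else 0)) (d : ℕ)
    (hlt : M * B < PE * 2 ^ (d + 1)) :
    ∃ ρ, ev ρ ∧ ∀ i, toK K (fun y => ψ i (merge ρ y)) ∈ J K d := by
  by_contra hcon
  push Not at hcon
  have h1 : ∀ ρ : V → Bool × Bool, (2 : ℝ) ^ (d + 1) * (if ev ρ then 1 else 0) ≤
      ∑ i, (2 : ℝ) ^ (jdeg (fun y => (toK K (ψ i)) (merge ρ y))) := by
    intro ρ
    by_cases h : ev ρ
    · rw [if_pos h, mul_one]
      obtain ⟨i, hi⟩ := hcon ρ h
      have h2 : d + 1 ≤ jdeg (fun y => (toK K (ψ i)) (merge ρ y)) := by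
        by_contra h3
        push Not at h3
        exact hi (mem_J_of_jdeg_le (F := fun y => (toK K (ψ i)) (merge ρ y)) (by omega))
      calc (2 : ℝ) ^ (d + 1) ≤ 2 ^ (jdeg (fun y => (toK K (ψ i)) (merge ρ y))) :=
            pow_le_pow_right₀ (by norm_num) h2
        _ ≤ _ := Finset.single_le_sum
            (f := fun i => (2 : ℝ) ^ (jdeg (fun y => (toK K (ψ i)) (merge ρ y))))
            (fun i _ => by positivity) (mem_univ i)
    · rw [if_neg h, mul_zero]
      exact Finset.sum_nonneg (fun i _ => by positivity)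
  have h2 := EE_mono (fun _ : V => wt κ T) (fun v s => wt_nonneg hκ0 hκ1 _ s) h1
  rw [EE_mul_const, EE_sum] at h2
  have h3 : ∑ i : Fin M, EE (fun _ : V => wt κ T)
      (fun ρ => (2 : ℝ) ^ (jdeg (fun y => (toK K (ψ i)) (merge ρ y)))) ≤ M * B := by
    calc _ ≤ ∑ _i : Fin M, B := Finset.sum_le_sum (fun i _ => hB i)
      _ = M * B := by rw [Finset.sum_const, card_univ, Fintype.card_fin, nsmul_eq_mul]
  have h4 : PE * 2 ^ (d + 1) ≤ 2 ^ (d + 1) *
      EE (fun _ : V => wt κ T) (fun ρ => if ev ρ then 1 else 0) := by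
    rw [mul_comm]
    exact mul_le_mul_of_nonneg_left hPE (by positivity)
  linarith

/-- The core existence statement. -/
theorem core (A r : ℕ) (hA : 1 ≤ A) (hr : 1 ≤ r) (γ : ℝ) (hγ0 : 0 < γ) (hγ : γ < 3 / 2) :
    ∃ c : ℝ, 0 < c ∧ ∃ n₀ : ℕ, ∀ n m : ℕ, n₀ ≤ n → 1 ≤ m →
      ∀ (K : Type) [Field K] (M : ℕ)
        (ψ : Fin M → ((Fin n × Bool) × Fin r × Fin m → Bool) → Bool)
        (L : Fin M → ((Fin n × Bool) × Fin r × Fin m → ℕ)) (S : Fin M → ℕ),
        (∀ i, Comp K (L i) (S i) (ψ i)) →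
        (∀ i, ((∑ v, L i v : ℕ) : ℝ) ≤ c * n * (m : ℝ) ^ γ) →
        (∀ i, (S i : ℝ) ≤ c * n) →
        ((M : ℝ) < (2 : ℝ) ^ (c * n)) →
        ∃ d : ℕ, 2 * (A * d + 4) ≤ n / 60 ∧
          ∃ ρ : (Fin n × Bool) × Fin r × Fin m → Bool × Bool,
            (∀ e t, ∃ j, (ρ (e, t, j)).1 = true) ∧
            ∀ i, toK K (fun y => ψ i (merge ρ y)) ∈ J K d := by
  obtain ⟨κ, hκ0, hκ1, u0, hu0, hg⟩ := exists_kappa hγ
  set θ := κ ^ γ with hθdef
  have hθ0 : 0 < θ := Real.rpow_pos_of_pos hκ0 γ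
  have hθ1 : θ < 1 := Real.rpow_lt_one hκ0.le hκ1 hγ0
  obtain ⟨j0, hj0⟩ : ∃ j0 : ℕ, ∀ j, j0 < j → 3 * κ ^ j ≤ θ * u0 := by
    have h1 : Tendsto (fun j : ℕ => 3 * κ ^ j) atTop (𝓝 (3 * 0)) :=
      (tendsto_pow_atTop_nhds_zero_of_lt_one hκ0.le hκ1).const_mul 3
    rw [mul_zero] at h1
    have h2 := h1.eventually (eventually_lt_nhds (mul_pos hθ0 hu0))
    obtain ⟨j0, hj0⟩ := eventually_atTop.mp h2
    exact ⟨j0, fun j hj => (hj0 j hj.le).le⟩
  have hAr : (0 : ℝ) < A := by exact_mod_cast hA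
  have hrr : (0 : ℝ) < r := by exact_mod_cast hr
  set δ : ℝ := 1 / (240 * A) with hδ
  have hδ0 : 0 < δ := by positivity
  have hA1 : (1 : ℝ) ≤ A := by exact_mod_cast hA
  have hr1 : (1 : ℝ) ≤ r := by exact_mod_cast hr
  have hδ1 : δ ≤ 1 := by
    rw [hδ, div_le_one (by positivity)]; linarith
  set η : ℝ := δ / (64 * r) with hη
  have hη0 : 0 < η := by positivity
  have hη1 : η ≤ 1 / 2 := by
    rw [hη, div_le_iff₀ (by positivity)]; nlinarith
  set C : ℝ := -Real.log η with hC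
  have hC0 : 0 < C := by
    have := Real.log_neg hη0 (by linarith)
    linarith
  set c : ℝ := min (δ / 8) (min (δ / 32) (δ * θ ^ (j0 + 1) / (16 * C ^ γ))) with hc
  have hCγ : 0 < C ^ γ := Real.rpow_pos_of_pos hC0 γ
  have hc0 : 0 < c := by
    rw [hc]
    refine lt_min (by positivity) (lt_min (by positivity) ?_)
    exact div_pos (mul_pos hδ0 (pow_pos hθ0 _)) (by positivity)
  refine ⟨c, hc0, 960 * A + 960, ?_⟩
  intro n m hn hm K _ M ψ L S hcomp hL hS hM
  set d : ℕ := n / (240 * A) with hd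
  have hdn : 240 * A * d ≤ n := Nat.mul_div_le n (240 * A)
  have hdn2 : n < 240 * A * (d + 1) := by
    rw [hd]; exact Nat.lt_mul_div_succ n (by positivity)
  have hnr : (0 : ℝ) < n := by
    have : 0 < n := by omega
    exact_mod_cast this
  have hdr : δ * n / 2 ≤ d := by
    have h1 : (n : ℝ) < 240 * A * (d + 1) := by exact_mod_cast hdn2
    have h2 : δ * n < d + 1 := by
      rw [hδ, one_div, inv_mul_lt_iff₀ (by positivity)]
      exact h1
    have h3 : (1 : ℝ) ≤ δ * n / 2 := by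
      have h4 : ((960 * A + 960 : ℕ) : ℝ) ≤ n := by exact_mod_cast hn
      push_cast at h4
      rw [hδ, one_div, le_div_iff₀ (by norm_num), one_mul, inv_mul_eq_div,
        le_div_iff₀ (by positivity)]
      nlinarith
    linarith
  refine ⟨d, ?_, ?_⟩
  · have h1 : 240 * (A * d) ≤ n := by rw [← mul_assoc]; exact hdn
    omega
  -- choice of the number of stages
  have hmr : (0 : ℝ) < m := by exact_mod_cast hm
  obtain ⟨T, hT1, hT2⟩ : ∃ T : ℕ, κ ^ (T + 1) < C / m ∧ (1 - κ ^ T) ^ m ≤ η := by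
    by_cases hCm : C / m ≤ 1
    · obtain ⟨T, h1, h2⟩ := exists_nat_pow_near_of_lt_one (div_pos hC0 hmr) hCm hκ0 hκ1
      refine ⟨T, h1, ?_⟩
      have h3 : 1 - κ ^ T ≤ Real.exp (-(κ ^ T)) := by
        have := Real.add_one_le_exp (-(κ ^ T))
        linarith
      have h4 : 0 ≤ 1 - κ ^ T := sub_nonneg.mpr (pow_le_one₀ hκ0.le hκ1.le)
      calc (1 - κ ^ T) ^ m ≤ (Real.exp (-(κ ^ T))) ^ m := pow_le_pow_left₀ h4 h3 m
        _ = Real.exp (-(κ ^ T * m)) := by rw [← Real.exp_nat_mul]; congr 1; ring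
        _ ≤ Real.exp (-C) := by
            apply Real.exp_le_exp.mpr
            have : C ≤ κ ^ T * m := by rwa [div_le_iff₀ hmr] at h2
            linarith
        _ = η := by rw [hC, neg_neg, Real.exp_log hη0]
    · push Not at hCm
      refine ⟨0, ?_, ?_⟩
      · simp only [zero_add, pow_one]; linarith
      · have hm0 : m ≠ 0 := by omega
        simp [hm0, hη0.le]
  -- the bound on the potentials
  have hlog2 : 0 < Real.log 2 := Real.log_pos (by norm_num)
  have hθT : θ ^ (T - j0) * θ ^ (j0 + 1) ≤ (C / m) ^ γ := by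
    have h1 : θ ^ (T - j0) * θ ^ (j0 + 1) ≤ θ ^ (T + 1) := by
      rw [← pow_add]
      exact pow_le_pow_of_le_one hθ0.le hθ1.le (by omega)
    have h2 : θ ^ (T + 1) = (κ ^ (T + 1)) ^ γ := by
      rw [hθdef, ← Real.rpow_natCast, ← Real.rpow_mul hκ0.le, ← Real.rpow_natCast κ,
        ← Real.rpow_mul hκ0.le, mul_comm]
    rw [h2] at h1
    exact h1.trans (Real.rpow_le_rpow (pow_pos hκ0 _).le hT1.le hγ0.le)
  have hWW : ∀ i, WW θ j0 (fun _ => T) (L i) (S i) ≤ Real.log 2 * (d / 4 : ℝ) := by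
    intro i
    have e1 : WW θ j0 (fun _ => T) (L i) (S i) =
        Real.log 2 * (θ ^ (T - j0) * ((∑ v, L i v : ℕ) : ℝ) + S i) := by
      unfold WW wj
      push_cast
      rw [← Finset.mul_sum]
      ring
    rw [e1]
    apply mul_le_mul_of_nonneg_left _ hlog2.le
    have e2 : θ ^ (T - j0) * ((∑ v, L i v : ℕ) : ℝ) ≤ δ * n / 16 := by
      have h1 : θ ^ (T - j0) * ((∑ v, L i v : ℕ) : ℝ) ≤
          θ ^ (T - j0) * (c * n * (m : ℝ) ^ γ) :=
        mul_le_mul_of_nonneg_left (hL i) (pow_pos hθ0 _).le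
      have h2 : c ≤ δ * θ ^ (j0 + 1) / (16 * C ^ γ) :=
        (min_le_right _ _).trans (min_le_right _ _)
      have hmγ : 0 < (m : ℝ) ^ γ := Real.rpow_pos_of_pos hmr γ
      have h3 : θ ^ (T - j0) * (c * n * (m : ℝ) ^ γ) ≤
          θ ^ (T - j0) * ((δ * θ ^ (j0 + 1) / (16 * C ^ γ)) * n * (m : ℝ) ^ γ) := by
        apply mul_le_mul_of_nonneg_left _ (pow_pos hθ0 _).le
        apply mul_le_mul_of_nonneg_right _ hmγ.le
        exact mul_le_mul_of_nonneg_right h2 hnr.le
      have h4 : θ ^ (T - j0) * ((δ * θ ^ (j0 + 1) / (16 * C ^ γ)) * n * (m : ℝ) ^ γ) =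
          (θ ^ (T - j0) * θ ^ (j0 + 1)) * (δ * n / 16 * ((m : ℝ) ^ γ / C ^ γ)) := by
        field_simp
      have h5 : (C / m) ^ γ * ((m : ℝ) ^ γ / C ^ γ) = 1 := by
        rw [Real.div_rpow hC0.le hmr.le]
        field_simp
      have h6 : (θ ^ (T - j0) * θ ^ (j0 + 1)) * (δ * n / 16 * ((m : ℝ) ^ γ / C ^ γ)) ≤
          (C / m) ^ γ * (δ * n / 16 * ((m : ℝ) ^ γ / C ^ γ)) :=
        mul_le_mul_of_nonneg_right hθT (by positivity)
      have h7 : (C / m) ^ γ * (δ * n / 16 * ((m : ℝ) ^ γ / C ^ γ)) = δ * n / 16 := by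
        calc _ = δ * n / 16 * ((C / m) ^ γ * ((m : ℝ) ^ γ / C ^ γ)) := by ring
          _ = _ := by rw [h5, mul_one]
      linarith
    have e3 : (S i : ℝ) ≤ δ * n / 32 := by
      refine (hS i).trans ?_
      have h1 : c ≤ δ / 32 := (min_le_right _ _).trans (min_le_left _ _)
      calc c * n ≤ δ / 32 * n := mul_le_mul_of_nonneg_right h1 hnr.le
        _ = _ := by ring
    have hδn : 0 < δ * n := mul_pos hδ0 hnr
    linarith
  have hGG : ∀ i, GG κ (fun _ => T) (toK K (ψ i)) ≤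
      2 * Real.exp (Real.log 2 * (d / 4 : ℝ)) := by
    intro i
    have h1 := shrink (K := K) hκ0 hκ1 hθ0 hθ1.le hg hj0 _ (fun _ => T) rfl (L i) (S i) (ψ i)
      (hcomp i)
    refine h1.trans ?_
    exact mul_le_mul_of_nonneg_left (Real.exp_le_exp.mpr (hWW i)) (by norm_num)
  classical
  refine exists_good hκ0.le hκ1.le T M ψ _ hGG
    (fun ρ => ∀ e t, ∃ j, (ρ (e, t, j)).1 = true)
    (Real.exp (-(Real.log 2 * (d / 4 : ℝ)))) ?_ d ?_
  · -- probability that all blocks are alive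
    have h0 := EE_alive (E := Fin n × Bool) r m κ T
    have h1 : EE (fun _ : (Fin n × Bool) × Fin r × Fin m => wt κ T)
      (fun ρ => if ∀ e t, ∃ j, (ρ (e, t, j)).1 = true then 1 else 0) =
      ((1 - (1 - κ ^ T) ^ m) ^ r) ^ (2 * n) := by
      rw [h0]
      simp [mul_comm]
    rw [h1]
    have h2 : Real.exp (-(2 * η)) ≤ 1 - (1 - κ ^ T) ^ m := by
      have h3 : Real.exp (-(2 * η)) ≤ 1 - η := by
        rw [Real.exp_neg, inv_le_comm₀ (Real.exp_pos _) (by linarith)]
        have h4 := Real.add_one_le_exp (2 * η)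
        have h5 : (1 - η)⁻¹ ≤ 2 * η + 1 := by
          rw [inv_le_iff_one_le_mul₀ (by linarith)]
          nlinarith
        linarith
      linarith
    calc Real.exp (-(Real.log 2 * (d / 4 : ℝ)))
        ≤ Real.exp (-(2 * η) * (r * (2 * n) : ℕ)) := by
          apply Real.exp_le_exp.mpr
          push_cast
          have h3 : 2 * η * (r * (2 * n)) = δ * n / 16 := by
            rw [hη]; field_simp; ring
          have h4 : (1 : ℝ) / 2 ≤ Real.log 2 := by
            have := Real.log_two_gt_d9; linarith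
          have h5 : δ * n / 16 ≤ Real.log 2 * (d / 4 : ℝ) := by
            have h6 : δ * n / 16 ≤ 1 / 2 * (d / 4 : ℝ) := by linarith
            have h7 : (0 : ℝ) ≤ d / 4 := by positivity
            nlinarith
          linarith
      _ = (Real.exp (-(2 * η))) ^ (r * (2 * n)) := by
          rw [← Real.exp_nat_mul]; congr 1; ring
      _ ≤ (1 - (1 - κ ^ T) ^ m) ^ (r * (2 * n)) :=
          pow_le_pow_left₀ (Real.exp_pos _).le h2 _
      _ = ((1 - (1 - κ ^ T) ^ m) ^ r) ^ (2 * n) := by rw [pow_mul]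
  · -- counting
    have hcd : c * n ≤ d / 4 := by
      have h1 : c ≤ δ / 8 := min_le_left _ _
      have h2 : c * n ≤ δ / 8 * n := mul_le_mul_of_nonneg_right h1 hnr.le
      linarith
    have h2 : (M : ℝ) < Real.exp (Real.log 2 * (d / 4 : ℝ)) := by
      refine hM.trans_le ?_
      rw [Real.rpow_def_of_pos (by norm_num)]
      apply Real.exp_le_exp.mpr
      exact mul_le_mul_of_nonneg_left hcd hlog2.le
    have h3 : (2 : ℝ) ^ (d + 1) = 2 * Real.exp (Real.log 2 * d) := by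
      rw [pow_succ, Real.exp_mul, Real.exp_log (by norm_num), Real.rpow_natCast]; ring
    rw [h3]
    have h4 : (M : ℝ) * (2 * Real.exp (Real.log 2 * (d / 4 : ℝ))) <
        Real.exp (Real.log 2 * (d / 4 : ℝ)) * (2 * Real.exp (Real.log 2 * (d / 4 : ℝ))) :=
      mul_lt_mul_of_pos_right h2 (by positivity)
    refine h4.trans_le ?_
    have h5 : Real.exp (Real.log 2 * (d / 4 : ℝ)) * (2 * Real.exp (Real.log 2 * (d / 4 : ℝ))) =
        2 * Real.exp (Real.log 2 * (d / 2 : ℝ)) := by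
      rw [mul_left_comm, ← Real.exp_add]; congr 2; ring
    have h6 : Real.exp (-(Real.log 2 * (d / 4 : ℝ))) * (2 * Real.exp (Real.log 2 * d)) =
        2 * Real.exp (Real.log 2 * (3 * d / 4 : ℝ)) := by
      rw [mul_left_comm, ← Real.exp_add]; congr 2; ring
    rw [h5, h6]
    apply mul_le_mul_of_nonneg_left _ (by norm_num)
    apply Real.exp_le_exp.mpr
    apply mul_le_mul_of_nonneg_left _ hlog2.le
    have : (0 : ℝ) ≤ d := Nat.cast_nonneg d
    linarith

end Pool.Agent.Helper600R2
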