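import Pool.Agent.Helper600R2.Comp

/-!
Expectations over product spaces, and random restrictions.
-/

set_option linter.unusedSectionVars false

namespace Pool.Agent.Helper600R2

open Finset

section expectation

variable {V : Type*} [Fintype V] [DecidableEq V] {S : Type*} [Fintype S] [DecidableEq S]

/-- weighted sum over a product space -/
def EE (p : V → S → ℝ) (H : (V → S) → ℝ) : ℝ := ∑ ρ : V → S, (∏ v, p v (ρ v)) * H ρ

lemma EE_update (p : V → S → ℝ) (x : V) (hp : ∑ s, p x s = 1) (p' : S → ℝ)
    (H : (V → S) → ℝ) :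
    EE (Function.update p x p') H =
      ∑ s, p' s * EE p (fun ρ => H (Function.update ρ x s)) := by
  let e : S × (V → S) → S × (V → S) := fun a => (a.2 x, Function.update a.2 x a.1)
  have he : Function.Involutive e := by
    rintro ⟨s, ρ⟩
    simp [e]
  let PR : (V → S) → ℝ := fun ρ => ∏ v ∈ univ.erase x, p v (ρ v)
  have hPR : ∀ ρ s, PR (Function.update ρ x s) = PR ρ := by
    intro ρ s
    refine Finset.prod_congr rfl (fun v hv => ?_)
    rw [Function.update_of_ne (ne_of_mem_erase hv)]
  have hprod : ∀ ρ : V → S, (∏ v, p v (ρ v)) = p x (ρ x) * PR ρ := fun ρ =>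
    (Finset.mul_prod_erase univ (fun v => p v (ρ v)) (mem_univ x)).symm
  have hprod' : ∀ ρ : V → S, (∏ v, (Function.update p x p') v (ρ v)) = p' (ρ x) * PR ρ := by
    intro ρ
    rw [← Finset.mul_prod_erase univ (fun v => (Function.update p x p') v (ρ v)) (mem_univ x)]
    rw [Function.update_self]
    congr 1
    refine Finset.prod_congr rfl (fun v hv => ?_)
    rw [Function.update_of_ne (ne_of_mem_erase hv)]
  have h1 : ∑ s, p' s * EE p (fun ρ => H (Function.update ρ x s)) =
      ∑ a : S × (V → S), p' a.1 * ((p x (a.2 x) * PR a.2) * H (Function.update a.2 x a.1)) := by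
    rw [Fintype.sum_prod_type]
    refine Finset.sum_congr rfl (fun s _ => ?_)
    rw [EE, Finset.mul_sum]
    refine Finset.sum_congr rfl (fun ρ _ => ?_)
    rw [hprod]
  have h2 : ∑ a : S × (V → S), p' a.1 * ((p x (a.2 x) * PR a.2) *
      H (Function.update a.2 x a.1)) =
      ∑ a : S × (V → S), p x a.1 * (p' (a.2 x) * PR a.2 * H a.2) := by
    refine Fintype.sum_equiv he.toPerm _ _ ?_
    rintro ⟨s, ρ⟩
    simp only [Function.Involutive.coe_toPerm, e, Function.update_self, hPR]
    ring
  rw [h1, h2, Fintype.sum_prod_type]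
  simp only
  rw [← Finset.sum_mul_sum, hp, one_mul, EE]
  refine Finset.sum_congr rfl (fun ρ _ => ?_)
  rw [hprod']

lemma EE_resample (p : V → S → ℝ) (x : V) (hp : ∑ s, p x s = 1) (H : (V → S) → ℝ) :
    EE p H = ∑ s, p x s * EE p (fun ρ => H (Function.update ρ x s)) := by
  have := EE_update p x hp (p x) H
  rwa [Function.update_eq_self] at this

/-- changing the weights of a coordinate on which `H` does not depend -/
lemma EE_indep (p : V → S → ℝ) (x : V) (hp : ∑ s, p x s = 1) (p' : S → ℝ) (hp' : ∑ s, p' s = 1)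
    (H : (V → S) → ℝ) (hH : ∀ ρ s, H (Function.update ρ x s) = H ρ) :
    EE (Function.update p x p') H = EE p H := by
  rw [EE_update p x hp]
  simp only [hH]
  rw [← Finset.sum_mul, hp', one_mul]

lemma EE_mono (p : V → S → ℝ) (hp : ∀ v s, 0 ≤ p v s) {H H' : (V → S) → ℝ}
    (h : ∀ ρ, H ρ ≤ H' ρ) : EE p H ≤ EE p H' :=
  Finset.sum_le_sum (fun ρ _ => mul_le_mul_of_nonneg_left (h ρ)
    (Finset.prod_nonneg (fun v _ => hp v _)))

lemma EE_const (p : V → S → ℝ) (hp : ∀ v, ∑ s, p v s = 1) (c : ℝ) :
    EE p (fun _ => c) = c := by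
  have h1 : ∑ ρ : V → S, ∏ v, p v (ρ v) = 1 := by
    have h := Finset.prod_univ_sum (fun _ : V => (univ : Finset S)) (fun v s => p v s)
    rw [Fintype.piFinset_univ] at h
    rw [← h]
    simp [hp]
  rw [EE, ← Finset.sum_mul, h1, one_mul]

lemma EE_mul_const (p : V → S → ℝ) (H : (V → S) → ℝ) (c : ℝ) :
    EE p (fun ρ => c * H ρ) = c * EE p H := by
  rw [EE, EE, Finset.mul_sum]
  exact Finset.sum_congr rfl (fun ρ _ => by ring)

lemma EE_add (p : V → S → ℝ) (H H' : (V → S) → ℝ) :
    EE p (fun ρ => H ρ + H' ρ) = EE p H + EE p H' := by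
  rw [EE, EE, EE, ← Finset.sum_add_distrib]
  exact Finset.sum_congr rfl (fun ρ _ => by ring)

lemma EE_sum (p : V → S → ℝ) {κ : Type*} (s : Finset κ) (H : κ → (V → S) → ℝ) :
    EE p (fun ρ => ∑ i ∈ s, H i ρ) = ∑ i ∈ s, EE p (H i) := by
  simp only [EE, Finset.mul_sum]
  rw [Finset.sum_comm]

end expectation

section restriction

variable {V : Type*} [Fintype V] [DecidableEq V] {K : Type*} [Field K]

/-- weights of a single variable that is kept alive with probability `κ ^ j` and otherwise gets
a uniform random bit -/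
noncomputable def wt (κ : ℝ) (j : ℕ) : Bool × Bool → ℝ :=
  fun s => (if s.1 then κ ^ j else 1 - κ ^ j) / 2

lemma wt_sum (κ : ℝ) (j : ℕ) : ∑ s, wt κ j s = 1 := by
  simp only [wt, Fintype.sum_prod_type, Fintype.sum_bool]
  simp only [if_true, Bool.false_eq_true, if_false]
  ring

lemma wt_nonneg {κ : ℝ} (h0 : 0 ≤ κ) (h1 : κ ≤ 1) (j : ℕ) (s : Bool × Bool) : 0 ≤ wt κ j s := by
  have h2 : 0 ≤ κ ^ j := pow_nonneg h0 j
  have h3 : κ ^ j ≤ 1 := pow_le_one₀ h0 h1
  unfold wt
  split_ifs <;> linarith

/-- expectation of `2 ^ deg` under a random restriction -/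
noncomputable def GG (κ : ℝ) (τ : V → ℕ) (F : (V → Bool) → K) : ℝ :=
  EE (fun v => wt κ (τ v)) (fun ρ => (2 : ℝ) ^ (jdeg (fun y => F (merge ρ y))))

/-- fixing a variable -/
def fixv (F : (V → Bool) → K) (x : V) (b : Bool) : (V → Bool) → K :=
  fun y => F (Function.update y x b)

lemma merge_dead (ρ : V → Bool × Bool) (x : V) (b : Bool) (y : V → Bool) :
    merge (Function.update ρ x (false, b)) y = Function.update (merge ρ y) x b := by
  funext i
  by_cases hi : i = x
  · subst hi; simp [merge]
  · simp [merge, Function.update_of_ne hi]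

lemma update_merge (ρ : V → Bool × Bool) (x : V) (s : Bool × Bool) (b : Bool) (y : V → Bool) :
    Function.update (merge (Function.update ρ x s) y) x b =
      Function.update (merge ρ y) x b := by
  funext i
  by_cases hi : i = x
  · subst hi; simp
  · simp [merge, Function.update_of_ne hi]

lemma merge_alive (ρ : V → Bool × Bool) (x : V) (c b : Bool) (y : V → Bool) :
    merge (Function.update ρ x (true, c)) (Function.update y x b) =
      Function.update (merge ρ y) x b := by
  funext i
  by_cases hi : i = x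
  · subst hi; simp [merge]
  · simp [merge, Function.update_of_ne hi]

lemma merge_alive_indep (ρ : V → Bool × Bool) (x : V) (c c' : Bool) (y : V → Bool) :
    merge (Function.update ρ x (true, c)) y = merge (Function.update ρ x (true, c')) y := by
  funext i
  by_cases hi : i = x
  · subst hi; simp [merge]
  · simp [merge, Function.update_of_ne hi]

/-- splitting along a variable -/
lemma jdeg_split (H : (V → Bool) → K) (x : V) :
    jdeg H ≤ 1 + max (jdeg (fixv H x false)) (jdeg (fixv H x true)) := by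
  apply jdeg_le
  have hX : (fun y => if y x then (1 : K) else 0 : (V → Bool) → K) ∈ J K 1 := by
    refine junta_mem {x} (by simp) ?_
    intro y z hyz
    have := hyz x (by simp)
    simp [this]
  have h0 : fixv H x false ∈ J K (max (jdeg (fixv H x false)) (jdeg (fixv H x true))) :=
    mem_J_of_jdeg_le (le_max_left _ _)
  have h1 : fixv H x true ∈ J K (max (jdeg (fixv H x false)) (jdeg (fixv H x true))) :=
    mem_J_of_jdeg_le (le_max_right _ _)
  have heq : H = (1 - fun y => if y x then (1 : K) else 0) * fixv H x false +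
      (fun y => if y x then (1 : K) else 0) * fixv H x true := by
    funext y
    simp only [Pi.add_apply, Pi.mul_apply, Pi.sub_apply, Pi.one_apply, fixv]
    cases hy : y x
    · have : Function.update y x false = y := by rw [← hy]; exact Function.update_eq_self x y
      simp [this]
    · have : Function.update y x true = y := by rw [← hy]; exact Function.update_eq_self x y
      simp [this]
  have hmem := Submodule.add_mem _ (J_mul (Submodule.sub_mem _ (J_one 1) hX) h0) (J_mul hX h1)
  rwa [← heq] at hmem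

lemma fun_update_wt (κ : ℝ) (τ : V → ℕ) (x : V) (j : ℕ) :
    (fun v => wt κ (Function.update τ x j v)) =
      Function.update (fun v => wt κ (τ v)) x (wt κ j) := by
  funext v
  by_cases hv : v = x
  · subst hv; simp
  · simp [Function.update_of_ne hv]

/-- the value of `GG` for functions not depending on `x` -/
lemma GG_fixv_update (κ : ℝ) (τ : V → ℕ) (F : (V → Bool) → K) (x : V) (b : Bool) (j : ℕ) :
    GG κ (Function.update τ x j) (fixv F x b) = GG κ τ (fixv F x b) := by
  unfold GG
  rw [fun_update_wt]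
  refine EE_indep (fun v => wt κ (τ v)) x (wt_sum κ (τ x)) (wt κ j) (wt_sum κ j) _ ?_
  intro ρ s
  simp only [fixv, update_merge]

/-- the contribution of the alive case -/
noncomputable def aliveG (κ : ℝ) (τ : V → ℕ) (F : (V → Bool) → K) (x : V) : ℝ :=
  EE (fun v => wt κ (τ v))
    (fun ρ => (2 : ℝ) ^ (jdeg (fun y => F (merge (Function.update ρ x (true, false)) y))))

lemma GG_update (κ : ℝ) (τ : V → ℕ) (F : (V → Bool) → K) (x : V) (j : ℕ) :
    GG κ (Function.update τ x j) F =
      κ ^ j * aliveG κ τ F x +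
        (1 - κ ^ j) / 2 * (GG κ τ (fixv F x false) + GG κ τ (fixv F x true)) := by
  unfold GG
  rw [fun_update_wt, EE_update (fun v => wt κ (τ v)) x (wt_sum κ (τ x)) (wt κ j)]
  rw [Fintype.sum_prod_type]
  simp only [Fintype.sum_bool]
  have h1 : ∀ b, (fun ρ : V → Bool × Bool =>
      (2 : ℝ) ^ (jdeg (fun y => F (merge (Function.update ρ x (false, b)) y)))) =
      fun ρ => (2 : ℝ) ^ (jdeg (fun y => (fixv F x b) (merge ρ y))) := by
    intro b
    funext ρ
    congr 2
    funext y
    rw [merge_dead]; rfl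
  have h2 : (fun ρ : V → Bool × Bool =>
      (2 : ℝ) ^ (jdeg (fun y => F (merge (Function.update ρ x (true, true)) y)))) =
      fun ρ => (2 : ℝ) ^ (jdeg (fun y => F (merge (Function.update ρ x (true, false)) y))) := by
    funext ρ
    congr 2
    funext y
    rw [merge_alive_indep ρ x true false]
  rw [h1, h1, h2]
  simp only [wt, if_true, Bool.false_eq_true, if_false]
  rw [aliveG]
  ring

lemma GG_nonneg {κ : ℝ} (h0 : 0 ≤ κ) (h1 : κ ≤ 1) (τ : V → ℕ) (F : (V → Bool) → K) :
    0 ≤ GG κ τ F := by
  have := EE_mono (fun v => wt κ (τ v)) (fun v s => wt_nonneg h0 h1 _ s)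
    (H := fun _ => (0 : ℝ)) (H' := fun ρ => (2 : ℝ) ^ (jdeg (fun y => F (merge ρ y))))
    (fun ρ => by positivity)
  rwa [EE_const _ (fun v => wt_sum _ _)] at this

lemma aliveG_le {κ : ℝ} (h0 : 0 ≤ κ) (h1 : κ ≤ 1) (τ : V → ℕ) (F : (V → Bool) → K) (x : V) :
    aliveG κ τ F x ≤ 2 * (GG κ τ (fixv F x false) + GG κ τ (fixv F x true)) := by
  unfold aliveG GG
  rw [← EE_add, ← EE_mul_const]
  apply EE_mono _ (fun v s => wt_nonneg h0 h1 _ s)
  intro ρ
  have h2 := jdeg_split (fun y => F (merge (Function.update ρ x (true, false)) y)) x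
  have h3 : ∀ b, fixv (fun y => F (merge (Function.update ρ x (true, false)) y)) x b =
      fun y => (fixv F x b) (merge ρ y) := by
    intro b
    funext y
    simp only [fixv, merge_alive]
  rw [h3, h3] at h2
  set d0 := jdeg (fun y => (fixv F x false) (merge ρ y))
  set d1 := jdeg (fun y => (fixv F x true) (merge ρ y))
  calc (2 : ℝ) ^ (jdeg (fun y => F (merge (Function.update ρ x (true, false)) y)))
      ≤ 2 ^ (1 + max d0 d1) := pow_le_pow_right₀ (by norm_num) h2
    _ = 2 * 2 ^ (max d0 d1) := by rw [pow_add, pow_one]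
    _ ≤ 2 * (2 ^ d0 + 2 ^ d1) := by
        have hd0 : (0 : ℝ) ≤ 2 ^ d0 := by positivity
        have hd1 : (0 : ℝ) ≤ 2 ^ d1 := by positivity
        rcases le_total d0 d1 with h | h
        · rw [max_eq_right h]; linarith
        · rw [max_eq_left h]; linarith

lemma GG_le_of_jdeg {κ : ℝ} (h0 : 0 ≤ κ) (h1 : κ ≤ 1) (τ : V → ℕ) (F : (V → Bool) → K) (d : ℕ)
    (hF : F ∈ J K d) : GG κ τ F ≤ 2 ^ d := by
  have h2 : GG κ τ F ≤ EE (fun v => wt κ (τ v)) (fun _ => (2 : ℝ) ^ d) := by
    unfold GG
    apply EE_mono _ (fun v s => wt_nonneg h0 h1 _ s)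
    intro ρ
    apply pow_le_pow_right₀ (by norm_num)
    apply jdeg_le
    refine J_comp_self hF (fun y => merge ρ y) ?_
    intro i y z hyz
    simp [merge, hyz]
  rwa [EE_const _ (fun v => wt_sum _ _)] at h2

end restriction

end Pool.Agent.Helper600R2
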