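import Pool.Agent.Helper600R2.Semantic

/-!
Functions of junta-degree at most `w` on `E → ZMod q` are combinations of characters with
support of size at most `w`.
-/

set_option linter.unusedSectionVars false

namespace Pool.Agent.Helper600R2

open Finset

section

variable {E : Type*} [Fintype E] [DecidableEq E] {q : ℕ}
  [NeZero q] {K : Type*} [Field K] (ψ : AddChar (ZMod q) K)

lemma chi_single (e : E) (c : ZMod q) (z : E → ZMod q) :
    chi ψ (Pi.single e c) z = ψ (c * z e) := by
  simp only [chi]
  congr 1
  rw [Finset.sum_eq_single e]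
  · simp
  · intro i _ hi; simp [Pi.single_eq_of_ne hi]
  · intro h; exact absurd (mem_univ _) h

lemma ind_mem_DC (hψ : ψ.IsPrimitive) (hq : (q : K) ≠ 0) (e : E) (t : ZMod q) :
    (fun z => if z e = t then (1 : K) else 0 : (E → ZMod q) → K) ∈ DC ψ 1 := by
  have h1 : (q : K)⁻¹ • ∑ c : ZMod q, ψ (-(c * t)) • chi ψ (Pi.single e c : E → ZMod q)
      ∈ DC ψ 1 := by
    refine Submodule.smul_mem _ _ (Submodule.sum_mem _ (fun c _ => Submodule.smul_mem _ _ ?_))
    apply chi_mem_DC
    refine (card_le_card (t := {e}) ?_).trans (by simp)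
    intro i hi
    simp only [nsupp, mem_filter, mem_univ, true_and, mem_singleton] at hi ⊢
    by_contra hne
    exact hi (by simp [Pi.single_eq_of_ne hne])
  have h2 : (fun z => if z e = t then (1 : K) else 0 : (E → ZMod q) → K) =
      (q : K)⁻¹ • ∑ c : ZMod q, ψ (-(c * t)) • chi ψ (Pi.single e c : E → ZMod q) := by
    funext z
    have h6 : ∑ c : ZMod q, ψ (-(c * t)) * ψ (c * z e) =
        if z e - t = 0 then (q : K) else 0 := by
      have h7 := AddChar.sum_mulShift (R' := K) (z e - t) hψ
      rw [ZMod.card] at h7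
      rw [Nat.cast_ite, Nat.cast_zero] at h7
      rw [← h7]
      refine Finset.sum_congr rfl (fun c _ => ?_)
      rw [← AddChar.map_add_eq_mul]
      congr 1; ring
    simp only [Pi.smul_apply, Finset.sum_apply, smul_eq_mul, chi_single, h6]
    by_cases hz : z e = t
    · simp [hz, hq]
    · simp [hz, sub_ne_zero.mpr hz]
  rw [h2]
  exact h1

lemma DC_prod {κ : Type*} [DecidableEq κ] (s : Finset κ) (f : κ → (E → ZMod q) → K)
    (h : ∀ i ∈ s, f i ∈ DC ψ 1) : (∏ i ∈ s, f i) ∈ DC (E := E) ψ s.card := by
  induction s using Finset.induction_on with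
  | empty => simpa using one_mem_DC (E := E) ψ 0
  | insert a s ha ih =>
    rw [Finset.prod_insert ha, Finset.card_insert_of_notMem ha, add_comm]
    exact DC_mul ψ (h a (mem_insert_self _ _)) (ih (fun i hi => h i (mem_insert_of_mem hi)))

lemma J_le_DC (hψ : ψ.IsPrimitive) (hq : (q : K) ≠ 0) (w : ℕ) :
    J (ι := E) (α := ZMod q) K w ≤ DC ψ w := by
  classical
  unfold J
  rw [Submodule.span_le]
  rintro g ⟨B, hB, hg⟩
  let Y : Finset (E → ZMod q) := Fintype.piFinset (fun e => if e ∈ B then univ else {0})
  have h1 : g = ∑ y ∈ Y, g y • ∏ e ∈ B, (fun z : E → ZMod q => if z e = y e then (1 : K) else 0) := by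
    funext z
    rw [Finset.sum_apply]
    let y₀ : E → ZMod q := fun e => if e ∈ B then z e else 0
    have hy₀ : y₀ ∈ Y := by
      simp only [Y, Fintype.mem_piFinset]
      intro e
      by_cases he : e ∈ B <;> simp [he, y₀]
    rw [Finset.sum_eq_single_of_mem y₀ hy₀]
    · simp only [Pi.smul_apply, Finset.prod_apply, smul_eq_mul]
      have h2 : g z = g y₀ := by
        apply hg
        intro i hi
        have : i ∈ B := by simpa using hi
        simp [y₀, this]
      rw [Finset.prod_eq_one, mul_one, h2]
      intro e he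
      simp [y₀, he]
    · intro y hy hne
      simp only [Pi.smul_apply, Finset.prod_apply, smul_eq_mul]
      have : ∃ e ∈ B, z e ≠ y e := by
        by_contra hcon
        push Not at hcon
        apply hne
        funext e
        by_cases he : e ∈ B
        · simp [y₀, he, hcon e he]
        · simp only [Y, Fintype.mem_piFinset] at hy
          have := hy e
          simp only [he, if_false, mem_singleton] at this
          simp [y₀, he, this]
      obtain ⟨e, he, hne'⟩ := this
      rw [Finset.prod_eq_zero he (by simp [hne']), mul_zero]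
  rw [SetLike.mem_coe, h1]
  refine Submodule.sum_mem _ (fun y _ => Submodule.smul_mem _ _ ?_)
  refine DC_mono ψ hB ?_
  exact DC_prod ψ B _ (fun e _ => ind_mem_DC ψ hψ hq e (y e))

end

end Pool.Agent.Helper600R2
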