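import Mathlib

/-!
Junta-span degree of functions on a product space.

`J K w` is the `K`-span of the functions on `ι → α` that depend on at most `w` coordinates.
For `α = Bool` this is the space of functions of multilinear degree at most `w` over `K`.
-/

set_option linter.unusedSectionVars false

namespace Pool.Agent.Helper600R2

open Finset

section basic

variable {ι α : Type*} (K : Type*) [Field K]

/-- functions depending on at most `w` coordinates -/
def juntas (w : ℕ) : Set ((ι → α) → K) :=
  {g | ∃ B : Finset ι, B.card ≤ w ∧ DependsOn g (B : Set ι)}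

/-- span of functions depending on at most `w` coordinates -/
def J (w : ℕ) : Submodule K ((ι → α) → K) := Submodule.span K (juntas (ι := ι) (α := α) K w)

variable {K}

lemma junta_mem {g : (ι → α) → K} {w : ℕ} (B : Finset ι) (hB : B.card ≤ w)
    (h : DependsOn g (B : Set ι)) : g ∈ J K w :=
  Submodule.subset_span ⟨B, hB, h⟩

lemma J_mono {w w' : ℕ} (h : w ≤ w') : J (ι := ι) (α := α) K w ≤ J K w' := by
  apply Submodule.span_mono
  rintro g ⟨B, hB, hg⟩
  exact ⟨B, hB.trans h, hg⟩

lemma J_const (c : K) (w : ℕ) : (fun _ => c : (ι → α) → K) ∈ J (ι := ι) (α := α) K w := by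
  refine junta_mem (∅ : Finset ι) (by simp) ?_
  intro x y _
  rfl

lemma J_one (w : ℕ) : (1 : (ι → α) → K) ∈ J (ι := ι) (α := α) K w := J_const 1 w

lemma J_mul {a b : ℕ} {f g : (ι → α) → K} (hf : f ∈ J K a) (hg : g ∈ J K b) :
    f * g ∈ J (ι := ι) (α := α) K (a + b) := by
  classical
  have h1 : f * g ∈ (J (ι := ι) (α := α) K a) * (J (ι := ι) (α := α) K b) :=
    Submodule.mul_mem_mul hf hg
  have h2 : (J (ι := ι) (α := α) K a) * (J (ι := ι) (α := α) K b) ≤ J K (a + b) := by
    unfold J
    rw [Submodule.span_mul_span]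
    apply Submodule.span_mono
    rintro _ ⟨u, ⟨B, hB, hu⟩, v, ⟨B', hB', hv⟩, rfl⟩
    refine ⟨B ∪ B', (card_union_le _ _).trans (by omega), ?_⟩
    intro x y hxy
    have e1 : u x = u y := hu (fun i hi => hxy i (by simp at hi ⊢; exact Or.inl hi))
    have e2 : v x = v y := hv (fun i hi => hxy i (by simp at hi ⊢; exact Or.inr hi))
    show (u * v) x = (u * v) y
    simp [Pi.mul_apply, e1, e2]
  exact h2 h1

lemma J_top [Fintype ι] {w : ℕ} (h : Fintype.card ι ≤ w) (f : (ι → α) → K) :
    f ∈ J (ι := ι) (α := α) K w := by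
  refine junta_mem Finset.univ (by simpa using h) ?_
  intro x y hxy
  have : x = y := funext fun i => hxy i (by simp)
  rw [this]

lemma J_prod {κ : Type*} (s : Finset κ) (f : κ → (ι → α) → K) (d : κ → ℕ)
    (h : ∀ i ∈ s, f i ∈ J K (d i)) : (∏ i ∈ s, f i) ∈ J (ι := ι) (α := α) K (∑ i ∈ s, d i) := by
  classical
  induction s using Finset.induction_on with
  | empty => simpa using J_one (ι := ι) (α := α) (K := K) 0
  | insert a s ha ih =>
    rw [Finset.prod_insert ha, Finset.sum_insert ha]
    exact J_mul (h a (mem_insert_self _ _)) (ih (fun i hi => h i (mem_insert_of_mem hi)))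

lemma J_pow {f : (ι → α) → K} {w : ℕ} (h : f ∈ J K w) (n : ℕ) :
    f ^ n ∈ J (ι := ι) (α := α) K (n * w) := by
  induction n with
  | zero => simpa using J_one (ι := ι) (α := α) (K := K) 0
  | succ n ih =>
    rw [pow_succ, Nat.succ_mul]
    exact J_mul ih h

/-- substitution: every coordinate of `σ x` depends on one coordinate of `x`. -/
lemma J_comp {ι' β : Type*} {w : ℕ} {g : (ι' → β) → K} (hg : g ∈ J (ι := ι') (α := β) K w)
    (σ : (ι → α) → (ι' → β)) (c : ι' → ι)
    (hσ : ∀ i', ∀ x y : ι → α, x (c i') = y (c i') → σ x i' = σ y i') :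
    (fun x => g (σ x)) ∈ J (ι := ι) (α := α) K w := by
  classical
  let φ : ((ι' → β) → K) →ₗ[K] ((ι → α) → K) :=
    { toFun := fun g x => g (σ x), map_add' := fun _ _ => rfl, map_smul' := fun _ _ => rfl }
  have h1 : (J (ι := ι') (α := β) K w) ≤ (J (ι := ι) (α := α) K w).comap φ := by
    unfold J
    rw [Submodule.span_le]
    rintro g ⟨B, hB, hg⟩
    refine Submodule.subset_span ⟨B.image c, card_image_le.trans hB, ?_⟩
    intro x y hxy
    show g (σ x) = g (σ y)
    apply hg
    intro i' hi'
    apply hσ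
    apply hxy
    simp only [coe_image, Set.mem_image]
    exact ⟨i', hi', rfl⟩
  exact h1 hg

/-- substituting constants or variables for coordinates does not increase the degree. -/
lemma J_comp_self {w : ℕ} {g : (ι → α) → K} (hg : g ∈ J (ι := ι) (α := α) K w)
    (σ : (ι → α) → (ι → α))
    (hσ : ∀ i, ∀ x y : ι → α, x i = y i → σ x i = σ y i) :
    (fun x => g (σ x)) ∈ J (ι := ι) (α := α) K w :=
  J_comp hg σ id hσ

end basic

section degree

variable {ι α : Type*} [Fintype ι] {K : Type*} [Field K]

/-- the least `w` with `F ∈ J K w` -/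
noncomputable def jdeg (F : (ι → α) → K) : ℕ := sInf {w | F ∈ J K w}

lemma jdeg_nonempty (F : (ι → α) → K) : {w | F ∈ J (ι := ι) (α := α) K w}.Nonempty :=
  ⟨Fintype.card ι, J_top le_rfl F⟩

lemma mem_J_jdeg (F : (ι → α) → K) : F ∈ J (ι := ι) (α := α) K (jdeg F) :=
  Nat.sInf_mem (jdeg_nonempty F)

lemma jdeg_le {F : (ι → α) → K} {w : ℕ} (h : F ∈ J (ι := ι) (α := α) K w) : jdeg F ≤ w :=
  Nat.sInf_le h

lemma mem_J_of_jdeg_le {F : (ι → α) → K} {w : ℕ} (h : jdeg F ≤ w) :
    F ∈ J (ι := ι) (α := α) K w := J_mono h (mem_J_jdeg F)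

end degree

section boolf

variable {X : Type*} (K : Type*) [Field K]

/-- a Boolean function as a `K`-valued function -/
def toK (f : X → Bool) : X → K := fun x => if f x then 1 else 0

variable {K}

lemma toK_true {f : X → Bool} {x : X} (h : f x = true) : toK K f x = 1 := by simp [toK, h]
lemma toK_false {f : X → Bool} {x : X} (h : f x = false) : toK K f x = 0 := by simp [toK, h]

lemma toK_not (f : X → Bool) : toK K (fun x => !f x) = 1 - toK K f := by
  funext x
  cases h : f x <;> simp [toK, h]

lemma toK_and (f g : X → Bool) : toK K (fun x => f x && g x) = toK K f * toK K g := by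
  funext x
  cases h : f x <;> cases h' : g x <;> simp [toK, h, h']

end boolf

end Pool.Agent.Helper600R2
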