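import Pool.Agent.Helper600R2.Tseitin

/-!
No sound derivation of a contradiction from a mod `q` Tseitin system consists of functions
of low degree.
-/

set_option linter.unusedSectionVars false

namespace Pool.Agent.Helper600R2

open Finset

/-- Every member of the sequence `f` of Boolean functions on `X` is implied by a single
constraint `C v`, or by at most `k` earlier members. -/
def Sound {X Vt : Type*} (C : Vt → X → Prop) (k : ℕ) {L : ℕ} (f : Fin L → X → Bool) : Prop :=
  ∀ i, (∃ v, ∀ x, C v x → f i x = true) ∨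
    (∃ P : Finset (Fin L), P.card ≤ k ∧ (∀ j ∈ P, j < i) ∧
      ∀ x, (∀ j ∈ P, f j x = true) → f i x = true)

section

variable {Vt E : Type*} [Fintype Vt] [Fintype E] [DecidableEq Vt] (hd tl : E → Vt) {q : ℕ}
  [NeZero q] {K : Type*} [Field K] (ψ : AddChar (ZMod q) K)

/-- net flow at vertex `v` -/
def flow (v : Vt) (z : E → ZMod q) : ZMod q := ∑ e, dd hd tl (Pi.single v (1 : ZMod q)) e * z e

lemma dd_single (v : Vt) (c : ZMod q) :
    dd hd tl (Pi.single v c) = fun e => c * dd hd tl (Pi.single v (1 : ZMod q)) e := by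
  funext e
  simp only [dd, Pi.single_apply]
  split_ifs <;> simp

lemma chi_dd_single (v : Vt) (c : ZMod q) (z : E → ZMod q) :
    chi ψ (dd hd tl (Pi.single v c)) z = ψ (c * flow hd tl v z) := by
  rw [dd_single]
  simp only [chi, flow, Finset.mul_sum, mul_assoc]

lemma NF_constraint (hψ : ψ.IsPrimitive) (hq : (q : K) ≠ 0) (b : Vt → ZMod q)
    (hVt : 3 < Fintype.card Vt) (s0 : ℕ)
    (hs0 : ∀ v : Vt, ∀ c : ZMod q, (nsupp (dd hd tl (Pi.single v c))).card ≤ s0) (v : Vt)
    (Cind : (E → ZMod q) → K) (hC1 : ∀ z, flow hd tl v z = b v → Cind z = 1)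
    (hC0 : ∀ z, flow hd tl v z ≠ b v → Cind z = 0) :
    1 - Cind ∈ NF hd tl ψ b s0 := by
  have hsmall : ∀ c : ZMod q, small (Pi.single v c : Vt → ZMod q) := by
    intro c
    have : (nsupp (Pi.single v c : Vt → ZMod q)).card ≤ 1 := by
      refine (card_le_card (t := {v}) ?_).trans (by simp)
      intro i hi
      simp only [nsupp, mem_filter, mem_univ, true_and, mem_singleton] at hi ⊢
      by_contra hne
      exact hi (by simp [Pi.single_eq_of_ne hne])
    simp only [small]
    omega
  have hgen : ∀ c : ZMod q,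
      (1 : (E → ZMod q) → K) - ψ (-(c * b v)) • chi ψ (dd hd tl (Pi.single v c))
        ∈ NF hd tl ψ b s0 := by
    intro c
    have h1 : chi ψ (dd hd tl (Pi.single v c)) - ψ (pr (Pi.single v c) b) •
        chi ψ (dd hd tl (Pi.single v c) - dd hd tl (Pi.single v c)) ∈ NF hd tl ψ b s0 :=
      Submodule.subset_span ⟨dd hd tl (Pi.single v c), Pi.single v c, hsmall c, hs0 v c,
        by rw [sub_self, nsupp_zero]; simp, rfl⟩
    have h2 : pr (Pi.single v c) b = c * b v := by
      simp only [pr]
      rw [Finset.sum_eq_single v]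
      · simp
      · intro i _ hi; simp [Pi.single_eq_of_ne hi]
      · intro h; exact absurd (mem_univ _) h
    rw [sub_self, chi_zero, h2] at h1
    have h3 := (NF hd tl ψ b s0).smul_mem (-ψ (-(c * b v))) h1
    have h4 : (-ψ (-(c * b v))) • (chi ψ (dd hd tl (Pi.single v c)) -
        ψ (c * b v) • (1 : (E → ZMod q) → K)) =
        1 - ψ (-(c * b v)) • chi ψ (dd hd tl (Pi.single v c)) := by
      have h5 : ψ (-(c * b v)) * ψ (c * b v) = 1 := by
        rw [← AddChar.map_add_eq_mul]; simp
      rw [smul_sub, smul_smul, neg_mul, h5, neg_smul, neg_smul, one_smul]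
      ring
    rw [h4] at h3
    exact h3
  have hsum : (q : K)⁻¹ • ∑ c : ZMod q,
      ((1 : (E → ZMod q) → K) - ψ (-(c * b v)) • chi ψ (dd hd tl (Pi.single v c)))
        ∈ NF hd tl ψ b s0 :=
    Submodule.smul_mem _ _ (Submodule.sum_mem _ (fun c _ => hgen c))
  have heq : 1 - Cind = (q : K)⁻¹ • ∑ c : ZMod q,
      ((1 : (E → ZMod q) → K) - ψ (-(c * b v)) • chi ψ (dd hd tl (Pi.single v c))) := by
    classical
    funext z
    have h6 : ∑ c : ZMod q, ψ (-(c * b v)) * ψ (c * flow hd tl v z) =
        if flow hd tl v z - b v = 0 then (q : K) else 0 := by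
      have h7 := AddChar.sum_mulShift (R' := K) (flow hd tl v z - b v) hψ
      rw [ZMod.card] at h7
      rw [Nat.cast_ite, Nat.cast_zero] at h7
      rw [← h7]
      refine Finset.sum_congr rfl (fun c _ => ?_)
      rw [← AddChar.map_add_eq_mul]
      congr 1; ring
    simp only [Pi.sub_apply, Pi.one_apply, Pi.smul_apply, Finset.sum_apply, smul_eq_mul,
      chi_dd_single, Finset.sum_sub_distrib, h6]
    simp only [Finset.sum_const, Finset.card_univ, ZMod.card, nsmul_eq_mul, mul_one]
    by_cases hz : flow hd tl v z = b v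
    · rw [hC1 z hz, if_pos (by rw [hz, sub_self])]
      simp
    · rw [hC0 z hz, if_neg (sub_ne_zero.mpr hz), sub_zero, sub_zero, inv_mul_cancel₀ hq]
  rw [heq]
  exact hsum

/-- The semantic degree lower bound. -/
theorem no_low_degree (hψ : ψ.IsPrimitive) (hq : (q : K) ≠ 0) (b : Vt → ZMod q)
    (hVt : 3 < Fintype.card Vt) (s0 w k : ℕ)
    (hs0 : ∀ v : Vt, ∀ c : ZMod q, (nsupp (dd hd tl (Pi.single v c))).card ≤ s0)
    (hconn : ∀ u : Vt → ZMod q, dd hd tl u = 0 → (nsupp u).card < Fintype.card Vt → u = 0)
    (hexp : ∀ u : Vt → ZMod q, (nsupp (dd hd tl u)).card ≤ 2 * ((k + 1) * w + s0) →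
      3 * (nsupp u).card < 2 * Fintype.card Vt → 3 * (nsupp u).card < Fintype.card Vt)
    {L : ℕ} (f : Fin L → (E → ZMod q) → Bool)
    (hf : Sound (fun v z => flow hd tl v z = b v) k f)
    (hdeg : ∀ i, toK K (f i) ∈ DC ψ w) (i : Fin L) : ∃ x, f i x = true := by
  classical
  obtain ⟨R, hR1, hR2, hR3⟩ := exists_reduction hd tl ψ hψ b ((k + 1) * w + s0)
    (by omega) hconn hexp
  have hw : w ≤ (k + 1) * w + s0 := by nlinarith [Nat.zero_le (k * w), Nat.zero_le s0]
  have hdown : ∀ g ∈ DC ψ w, g ∈ NF hd tl ψ b ((k + 1) * w + s0) → g ∈ NF hd tl ψ b w := by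
    intro g hg hg'
    have h1 := hR2 w hw g hg
    rw [hR1 g hg', sub_zero] at h1
    exact h1
  have hone : ∀ i, (1 : (E → ZMod q) → K) - toK K (f i) ∈ DC ψ w := fun i =>
    Submodule.sub_mem _ (one_mem_DC ψ w) (hdeg i)
  have main : ∀ n : ℕ, ∀ i : Fin L, i.val = n →
      (1 : (E → ZMod q) → K) - toK K (f i) ∈ NF hd tl ψ b w := by
    intro n
    induction n using Nat.strong_induction_on with
    | _ n ih =>
      intro i hi
      apply hdown _ (hone i)
      rcases hf i with ⟨v, hv⟩ | ⟨P, hPk, hPlt, hP⟩
      · let Cind : (E → ZMod q) → K := fun z => if flow hd tl v z = b v then 1 else 0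
        have h1 := NF_constraint hd tl ψ hψ hq b hVt s0 hs0 v Cind
          (fun z hz => by simp [Cind, hz]) (fun z hz => by simp [Cind, hz])
        have h2 := NF_mul hd tl ψ h1 (hone i)
        have h3 : (1 - Cind) * (1 - toK K (f i)) = 1 - toK K (f i) := by
          funext z
          by_cases hz : flow hd tl v z = b v
          · have := hv z hz
            simp [toK, this]
          · simp [Cind, hz]
        rw [h3] at h2
        refine NF_mono hd tl ψ ?_ h2
        nlinarith [Nat.zero_le (k * w)]
      · have hprod : ∀ Q : Finset (Fin L), (∀ j ∈ Q, j < i) →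
            (∏ j ∈ Q, toK K (f j)) ∈ DC ψ (Q.card * w) ∧
            (1 : (E → ZMod q) → K) - ∏ j ∈ Q, toK K (f j) ∈ NF hd tl ψ b (Q.card * w) := by
          intro Q
          induction Q using Finset.induction_on with
          | empty =>
            intro _
            simp only [prod_empty, sub_self]
            exact ⟨one_mem_DC ψ _, Submodule.zero_mem _⟩
          | insert a Q ha ihQ =>
            intro hQ
            obtain ⟨h1, h2⟩ := ihQ (fun j hj => hQ j (mem_insert_of_mem hj))
            have ha' := hQ a (mem_insert_self _ _)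
            have h3 := ih a.val (by have := Fin.lt_def.mp ha'; omega) a rfl
            rw [prod_insert ha, card_insert_of_notMem ha, add_mul, one_mul]
            refine ⟨?_, ?_⟩
            · rw [add_comm]
              exact DC_mul ψ (hdeg a) h1
            · have h4 : (1 : (E → ZMod q) → K) - toK K (f a) * ∏ j ∈ Q, toK K (f j) =
                  (1 - toK K (f a)) * (∏ j ∈ Q, toK K (f j)) + (1 - ∏ j ∈ Q, toK K (f j)) := by
                ring
              rw [h4]
              refine Submodule.add_mem _ ?_ (NF_mono hd tl ψ (by omega) h2)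
              have h5 := NF_mul hd tl ψ h3 h1
              refine NF_mono hd tl ψ (by omega) h5
        obtain ⟨_, h2⟩ := hprod P hPlt
        have h3 := NF_mul hd tl ψ h2 (hone i)
        have h4 : (1 - ∏ j ∈ P, toK K (f j)) * (1 - toK K (f i)) = 1 - toK K (f i) := by
          funext z
          by_cases hz : ∀ j ∈ P, f j z = true
          · have := hP z hz
            simp [toK, this]
          · push Not at hz
            obtain ⟨j, hj, hjz⟩ := hz
            have : (∏ j ∈ P, toK K (f j)) z = 0 := by
              rw [Finset.prod_apply]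
              exact Finset.prod_eq_zero hj (by simp [toK, hjz])
            simp only [Pi.mul_apply, Pi.sub_apply, Pi.one_apply, this]
            ring
        rw [h4] at h3
        refine NF_mono hd tl ψ ?_ h3
        have : P.card * w ≤ k * w := Nat.mul_le_mul_right w hPk
        nlinarith
  by_contra hcon
  push Not at hcon
  have h0 : toK K (f i) = 0 := by
    funext z
    simp [toK, hcon z]
  have h1 := main i.val i rfl
  rw [h0, sub_zero] at h1
  exact hR3 (hR1 1 (NF_mono hd tl ψ hw h1))

end

end Pool.Agent.Helper600R2
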