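import Pool.Agent.Helper600R2.Expect

/-!
Shrinkage of the degree of De Morgan formulas under random restrictions, with exponential tails.
-/

set_option linter.unusedSectionVars false

namespace Pool.Agent.Helper600R2

open Finset

variable {V : Type*} [Fintype V] [DecidableEq V] {K : Type*} [Field K]

/-- weight of a leaf whose variable has `j` stages left -/
noncomputable def wj (θ : ℝ) (j0 j : ℕ) : ℝ := Real.log 2 * θ ^ (j - j0)

/-- potential of a formula -/
noncomputable def WW (θ : ℝ) (j0 : ℕ) (τ : V → ℕ) (L : V → ℕ) (S : ℕ) : ℝ :=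
  ∑ v, wj θ j0 (τ v) * L v + Real.log 2 * S

lemma wj_pos {θ : ℝ} (hθ : 0 < θ) (j0 j : ℕ) : 0 < wj θ j0 j :=
  mul_pos (Real.log_pos (by norm_num)) (pow_pos hθ _)

lemma wj_anti {θ : ℝ} (hθ : 0 < θ) (hθ1 : θ ≤ 1) (j0 : ℕ) {i j : ℕ} (h : i ≤ j) :
    wj θ j0 j ≤ wj θ j0 i := by
  unfold wj
  apply mul_le_mul_of_nonneg_left _ (Real.log_pos (by norm_num)).le
  exact pow_le_pow_of_le_one hθ.le hθ1 (by omega)

lemma wj_le_log {θ : ℝ} (hθ : 0 < θ) (hθ1 : θ ≤ 1) (j0 j : ℕ) : wj θ j0 j ≤ Real.log 2 := by
  have := wj_anti hθ hθ1 j0 (Nat.zero_le j)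
  have h2 : wj θ j0 0 = Real.log 2 := by simp [wj]
  rwa [h2] at this

/-- potential without the variable `x` -/
noncomputable def Wx (θ : ℝ) (j0 : ℕ) (τ : V → ℕ) (L : V → ℕ) (S : ℕ) (x : V) : ℝ :=
  ∑ v ∈ univ.erase x, wj θ j0 (τ v) * L v + Real.log 2 * S

lemma WW_eq (θ : ℝ) (j0 : ℕ) (τ : V → ℕ) (L : V → ℕ) (S : ℕ) (x : V) :
    WW θ j0 τ L S = Wx θ j0 τ L S x + wj θ j0 (τ x) * L x := by
  unfold WW Wx
  rw [← Finset.add_sum_erase univ _ (mem_univ x)]
  ring

lemma Wx_update (θ : ℝ) (j0 : ℕ) (τ : V → ℕ) (L : V → ℕ) (S : ℕ) (x : V) (j : ℕ) :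
    Wx θ j0 (Function.update τ x j) L S x = Wx θ j0 τ L S x := by
  unfold Wx
  congr 1
  refine Finset.sum_congr rfl (fun v hv => ?_)
  rw [Function.update_of_ne (ne_of_mem_erase hv)]

/-- the effect of killed leaves on the potential -/
lemma Wx_drop {θ : ℝ} (hθ : 0 < θ) (hθ1 : θ ≤ 1) (j0 : ℕ) (τ : V → ℕ) (x : V)
    (hmax : ∀ v, τ v ≤ τ x) {L' Lb : V → ℕ} {S' Sb k : ℕ} (h0 : Lb x = 0)
    (hL : ∀ v, Lb v ≤ L' v) (hS : Sb ≤ S') (ht : tot Lb Sb + L' x + k ≤ tot L' S') :
    Wx θ j0 τ Lb Sb x + wj θ j0 (τ x) * k ≤ Wx θ j0 τ L' S' x := by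
  have hwx := wj_pos hθ j0 (τ x)
  have h1 : (k : ℝ) ≤ ∑ v ∈ univ.erase x, ((L' v : ℝ) - Lb v) + ((S' : ℝ) - Sb) := by
    have h2 : ((tot Lb Sb + L' x + k : ℕ) : ℝ) ≤ (tot L' S' : ℕ) := by exact_mod_cast ht
    simp only [tot] at h2
    push_cast at h2
    have h3 : ∑ v, (L' v : ℝ) = ∑ v ∈ univ.erase x, (L' v : ℝ) + L' x := by
      rw [← Finset.add_sum_erase univ _ (mem_univ x)]; ring
    have h4 : ∑ v, (Lb v : ℝ) = ∑ v ∈ univ.erase x, (Lb v : ℝ) := by
      rw [← Finset.add_sum_erase univ _ (mem_univ x), h0]; simp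
    rw [Finset.sum_sub_distrib]
    rw [h3, h4] at h2
    linarith
  have h5 : wj θ j0 (τ x) * k ≤
      ∑ v ∈ univ.erase x, wj θ j0 (τ v) * ((L' v : ℝ) - Lb v) +
        Real.log 2 * ((S' : ℝ) - Sb) := by
    calc wj θ j0 (τ x) * k
        ≤ wj θ j0 (τ x) * (∑ v ∈ univ.erase x, ((L' v : ℝ) - Lb v) + ((S' : ℝ) - Sb)) :=
          mul_le_mul_of_nonneg_left h1 hwx.le
      _ = ∑ v ∈ univ.erase x, wj θ j0 (τ x) * ((L' v : ℝ) - Lb v) +
          wj θ j0 (τ x) * ((S' : ℝ) - Sb) := by rw [mul_add, Finset.mul_sum]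
      _ ≤ _ := by
          apply add_le_add
          · apply Finset.sum_le_sum
            intro v _
            apply mul_le_mul_of_nonneg_right (wj_anti hθ hθ1 j0 (hmax v))
            have : (Lb v : ℝ) ≤ L' v := by exact_mod_cast hL v
            linarith
          · apply mul_le_mul_of_nonneg_right (wj_le_log hθ hθ1 j0 _)
            have : (Sb : ℝ) ≤ S' := by exact_mod_cast hS
            linarith
  have h6 : Wx θ j0 τ L' S' x - Wx θ j0 τ Lb Sb x =
      ∑ v ∈ univ.erase x, wj θ j0 (τ v) * ((L' v : ℝ) - Lb v) +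
        Real.log 2 * ((S' : ℝ) - Sb) := by
    unfold Wx
    simp only [mul_sub, Finset.sum_sub_distrib]
    ring
  linarith

lemma WW_mono {θ : ℝ} (hθ : 0 < θ) (j0 : ℕ) (τ : V → ℕ) {L L' : V → ℕ} {S S' : ℕ}
    (hL : ∀ v, L' v ≤ L v) (hS : S' ≤ S) : WW θ j0 τ L' S' ≤ WW θ j0 τ L S := by
  unfold WW
  apply add_le_add
  · apply Finset.sum_le_sum
    intro v _
    apply mul_le_mul_of_nonneg_left _ (wj_pos hθ j0 _).le
    exact_mod_cast hL v
  · apply mul_le_mul_of_nonneg_left _ (Real.log_pos (by norm_num)).le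
    exact_mod_cast hS

/-- the one-variable inequality used in the light case -/
lemma light_ineq {κ θ u0 : ℝ} (hκ1 : κ < 1)
    (hg : ∀ u, 0 ≤ u → u ≤ u0 → κ * Real.exp ((1 - θ) * u) +
      (1 - κ) / 2 * (Real.exp (-(θ * u)) + Real.exp (-(2 * (θ * u)))) ≤ 1)
    {w B k0 k1 : ℝ} (hθ : 0 < θ) (hw : 0 < w) (hB : 0 ≤ B) (hu : w * B ≤ u0) (hk0 : 0 ≤ k0)
    (hk1 : 0 ≤ k1) (hk : B ≤ k0 + k1) :
    κ * Real.exp (w * B) + (1 - κ) / 2 * (Real.exp (-(θ * w * k0)) + Real.exp (-(θ * w * k1)))
      ≤ Real.exp (θ * w * B) := by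
  have h1 := hg (w * B) (mul_nonneg hw.le hB) hu
  have hθw : 0 < θ * w := mul_pos hθ hw
  -- a + b ≤ 1 + a b
  have h2 : Real.exp (-(θ * w * k0)) + Real.exp (-(θ * w * k1)) ≤
      1 + Real.exp (-(θ * w * B)) := by
    have ha : Real.exp (-(θ * w * k0)) ≤ 1 := by
      rw [Real.exp_le_one_iff]; nlinarith [mul_nonneg hθw.le hk0]
    have hb : Real.exp (-(θ * w * k1)) ≤ 1 := by
      rw [Real.exp_le_one_iff]; nlinarith [mul_nonneg hθw.le hk1]
    have hab : Real.exp (-(θ * w * k0)) * Real.exp (-(θ * w * k1)) ≤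
        Real.exp (-(θ * w * B)) := by
      rw [← Real.exp_add]
      apply Real.exp_le_exp.mpr
      nlinarith [mul_le_mul_of_nonneg_left hk hθw.le]
    nlinarith [mul_nonneg (sub_nonneg.mpr ha) (sub_nonneg.mpr hb)]
  have h3 : 0 < Real.exp (θ * w * B) := Real.exp_pos _
  have h4 : Real.exp (θ * w * B) * (κ * Real.exp ((1 - θ) * (w * B)) +
      (1 - κ) / 2 * (Real.exp (-(θ * (w * B))) + Real.exp (-(2 * (θ * (w * B)))))) =
      κ * Real.exp (w * B) + (1 - κ) / 2 * (1 + Real.exp (-(θ * w * B))) := by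
    have e1 : Real.exp (θ * w * B) * Real.exp ((1 - θ) * (w * B)) = Real.exp (w * B) := by
      rw [← Real.exp_add]; congr 1; ring
    have e2 : Real.exp (θ * w * B) * Real.exp (-(θ * (w * B))) = 1 := by
      rw [← Real.exp_add]
      have : θ * w * B + -(θ * (w * B)) = 0 := by ring
      rw [this, Real.exp_zero]
    have e3 : Real.exp (θ * w * B) * Real.exp (-(2 * (θ * (w * B)))) =
        Real.exp (-(θ * w * B)) := by
      rw [← Real.exp_add]; congr 1; ring
    calc _ = κ * (Real.exp (θ * w * B) * Real.exp ((1 - θ) * (w * B))) +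
        (1 - κ) / 2 * (Real.exp (θ * w * B) * Real.exp (-(θ * (w * B))) +
          Real.exp (θ * w * B) * Real.exp (-(2 * (θ * (w * B))))) := by ring
      _ = _ := by rw [e1, e2, e3]
  have h5 : κ * Real.exp (w * B) + (1 - κ) / 2 * (1 + Real.exp (-(θ * w * B))) ≤
      Real.exp (θ * w * B) := by
    rw [← h4]
    calc _ ≤ Real.exp (θ * w * B) * 1 := mul_le_mul_of_nonneg_left h1 h3.le
      _ = _ := mul_one _
  have h6 : (1 - κ) / 2 * (Real.exp (-(θ * w * k0)) + Real.exp (-(θ * w * k1))) ≤
      (1 - κ) / 2 * (1 + Real.exp (-(θ * w * B))) :=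
    mul_le_mul_of_nonneg_left h2 (by linarith)
  linarith

/-- Shrinkage with exponential tails. -/
theorem shrink {κ θ u0 : ℝ} {j0 : ℕ} (hκ0 : 0 < κ) (hκ1 : κ < 1) (hθ : 0 < θ) (hθ1 : θ ≤ 1)
    (hg : ∀ u, 0 ≤ u → u ≤ u0 → κ * Real.exp ((1 - θ) * u) +
      (1 - κ) / 2 * (Real.exp (-(θ * u)) + Real.exp (-(2 * (θ * u)))) ≤ 1)
    (hj0 : ∀ j, j0 < j → 3 * κ ^ j ≤ θ * u0) :
    ∀ (N : ℕ) (τ : V → ℕ), ∑ v, τ v = N → ∀ (L : V → ℕ) (S : ℕ) (f : (V → Bool) → Bool),
      Comp K L S f → GG κ τ (toK K f) ≤ 2 * Real.exp (WW θ j0 τ L S) := by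
  intro N
  induction N using Nat.strong_induction_on with
  | _ N ih =>
    intro τ hτ L S f hf
    by_cases hall : ∀ v, τ v ≤ j0
    · -- no shrinkage left
      have h1 := GG_le_of_jdeg hκ0.le hκ1.le τ (toK K f) _ hf.degree
      have h2 : Real.exp (WW θ j0 τ L S) = (2 : ℝ) ^ (tot L S) := by
        have : WW θ j0 τ L S = Real.log 2 * (tot L S : ℕ) := by
          unfold WW tot
          have : ∀ v, wj θ j0 (τ v) = Real.log 2 := fun v => by
            simp [wj, Nat.sub_eq_zero_of_le (hall v)]
          simp only [this]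
          push_cast
          rw [← Finset.mul_sum]
          ring
        rw [this, Real.exp_mul, Real.exp_log (by norm_num), Real.rpow_natCast]
      rw [h2]
      have : (0 : ℝ) < 2 ^ (tot L S) := by positivity
      linarith
    · push Not at hall
      obtain ⟨v0, hv0⟩ := hall
      obtain ⟨x, -, hx⟩ := Finset.exists_max_image univ τ ⟨v0, mem_univ _⟩
      have hmax : ∀ v, τ v ≤ τ x := fun v => hx v (mem_univ v)
      have hjx : j0 < τ x := lt_of_lt_of_le hv0 (hmax v0)
      set j := τ x with hj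
      have hsumlt : ∀ i, i < j → ∑ v, Function.update τ x i v < N := by
        intro i hi
        rw [← hτ]
        apply Finset.sum_lt_sum
        · intro v _
          by_cases hv : v = x
          · subst hv; simp; omega
          · simp [Function.update_of_ne hv]
        · exact ⟨x, mem_univ _, by simpa using hi⟩
      have hWpos : 0 ≤ WW θ j0 τ L S := by
        unfold WW
        have h1 : 0 ≤ ∑ v, wj θ j0 (τ v) * (L v : ℝ) :=
          Finset.sum_nonneg (fun v _ => mul_nonneg (wj_pos hθ j0 _).le (Nat.cast_nonneg _))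
        have h2 : 0 ≤ Real.log 2 * (S : ℝ) :=
          mul_nonneg (Real.log_pos (by norm_num)).le (Nat.cast_nonneg _)
        linarith
      rcases hf.simplify x with ⟨⟨c, hc⟩, _⟩ | ⟨L', S', k, Lb, Sb, h1, h2, h3, h4, h5⟩
      · -- a bare literal
        have h6 : toK K f ∈ J K 1 := by
          refine junta_mem {x} (by simp) ?_
          intro y z hyz
          have := hyz x (by simp)
          simp [toK, hc, this]
        have h7 := GG_le_of_jdeg hκ0.le hκ1.le τ (toK K f) _ h6
        have h8 : 1 ≤ Real.exp (WW θ j0 τ L S) := Real.one_le_exp hWpos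
        rw [pow_one] at h7
        linarith
      · -- main case
        set Wn := Wx θ j0 τ L' S' x with hWn
        set w1 := wj θ j0 (j - 1) with hw1
        have hw1pos : 0 < w1 := wj_pos hθ j0 _
        have hwj : wj θ j0 j = θ * w1 := by
          simp only [hw1, wj]
          have : j - j0 = (j - 1 - j0) + 1 := by omega
          rw [this, pow_succ]
          ring
        set c := GG κ τ (fixv (toK K f) x false) + GG κ τ (fixv (toK K f) x true) with hcdef
        have hGj : GG κ τ (toK K f) = κ ^ j * aliveG κ τ (toK K f) x + (1 - κ ^ j) / 2 * c := by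
          have := GG_update κ τ (toK K f) x j
          rwa [hj, Function.update_eq_self] at this
        -- bounds on the two restrictions
        have hfix : ∀ b, GG κ τ (fixv (toK K f) x b) ≤
            2 * Real.exp (Wn - θ * w1 * k b) := by
          intro b
          obtain ⟨a1, a2, a3, a4, a5⟩ := h5 b
          have e1 : fixv (toK K f) x b = toK K (fun y => f (Function.update y x b)) := rfl
          have e2 := ih _ (hsumlt 0 (by omega)) (Function.update τ x 0) rfl (Lb b) (Sb b) _ a1
          rw [← e1, GG_fixv_update] at e2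
          have e3 : WW θ j0 (Function.update τ x 0) (Lb b) (Sb b) =
              Wx θ j0 τ (Lb b) (Sb b) x := by
            rw [WW_eq _ _ _ _ _ x, Wx_update, a2]; simp
          rw [e3] at e2
          have e4 := Wx_drop hθ hθ1 j0 τ x hmax a2 a3 a4 a5
          rw [← hj, hwj] at e4
          refine e2.trans ?_
          apply mul_le_mul_of_nonneg_left _ (by norm_num)
          apply Real.exp_le_exp.mpr
          linarith
        have hkn : ∀ b, (0 : ℝ) ≤ k b := fun b => Nat.cast_nonneg _
        have hWfin : Wn + θ * w1 * L' x ≤ WW θ j0 τ L S := by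
          have e1 := WW_mono hθ j0 τ h2 h3
          rw [WW_eq _ _ _ _ _ x] at e1
          rw [← hj, hwj] at e1
          exact e1
        suffices hsuff : GG κ τ (toK K f) ≤ 2 * Real.exp (Wn + θ * w1 * L' x) by
          refine hsuff.trans ?_
          exact mul_le_mul_of_nonneg_left (Real.exp_le_exp.mpr hWfin) (by norm_num)
        by_cases hlight : w1 * L' x ≤ u0
        · -- light variable
          have hG1 : GG κ (Function.update τ x (j - 1)) (toK K f) ≤
              2 * Real.exp (Wn + w1 * L' x) := by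
            have e1 := ih _ (hsumlt (j - 1) (by omega)) (Function.update τ x (j - 1)) rfl
              L' S' _ h1
            rw [WW_eq _ _ _ _ _ x, Wx_update, Function.update_self] at e1
            exact e1
          have hrec : GG κ τ (toK K f) =
              κ * GG κ (Function.update τ x (j - 1)) (toK K f) + (1 - κ) / 2 * c := by
            rw [GG_update κ τ (toK K f) x (j - 1), hGj, ← hcdef]
            have e1 : κ ^ j = κ * κ ^ (j - 1) := by
              rw [← pow_succ']; congr 1; omega
            rw [e1]; ring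
          have hc2 : c ≤ 2 * Real.exp Wn *
              (Real.exp (-(θ * w1 * k false)) + Real.exp (-(θ * w1 * k true))) := by
            have e1 := hfix false
            have e2 := hfix true
            rw [sub_eq_add_neg, Real.exp_add] at e1 e2
            rw [hcdef]
            linarith
          have hineq := light_ineq hκ1 hg hθ hw1pos (Nat.cast_nonneg (L' x)) hlight
            (hkn false) (hkn true) (by exact_mod_cast h4)
          calc GG κ τ (toK K f)
              = κ * GG κ (Function.update τ x (j - 1)) (toK K f) + (1 - κ) / 2 * c := hrec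
            _ ≤ κ * (2 * Real.exp (Wn + w1 * L' x)) + (1 - κ) / 2 * (2 * Real.exp Wn *
              (Real.exp (-(θ * w1 * k false)) + Real.exp (-(θ * w1 * k true)))) := by
                apply add_le_add
                · exact mul_le_mul_of_nonneg_left hG1 hκ0.le
                · exact mul_le_mul_of_nonneg_left hc2 (by linarith)
            _ = 2 * Real.exp Wn * (κ * Real.exp (w1 * L' x) + (1 - κ) / 2 *
              (Real.exp (-(θ * w1 * k false)) + Real.exp (-(θ * w1 * k true)))) := by
                rw [Real.exp_add]; ring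
            _ ≤ 2 * Real.exp Wn * Real.exp (θ * w1 * L' x) :=
                mul_le_mul_of_nonneg_left hineq (by positivity)
            _ = 2 * Real.exp (Wn + θ * w1 * L' x) := by rw [Real.exp_add]; ring
        · -- heavy variable
          push Not at hlight
          have hκj0 : 0 ≤ κ ^ j := pow_nonneg hκ0.le _
          have hκj1 : κ ^ j ≤ 1 := pow_le_one₀ hκ0.le hκ1.le
          have hc2 : c ≤ 4 * Real.exp Wn := by
            have e1 := hfix false
            have e2 := hfix true
            have e3 : ∀ b, Real.exp (Wn - θ * w1 * k b) ≤ Real.exp Wn := by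
              intro b
              apply Real.exp_le_exp.mpr
              have := mul_nonneg (mul_pos hθ hw1pos).le (hkn b)
              linarith
            have e4 := e3 false
            have e5 := e3 true
            rw [hcdef]
            linarith
          have hal := aliveG_le hκ0.le hκ1.le τ (toK K f) x
          rw [← hcdef] at hal
          have hheavy : 3 * κ ^ j ≤ θ * w1 * L' x := by
            refine (hj0 j hjx).trans ?_
            rw [mul_assoc]
            exact mul_le_mul_of_nonneg_left hlight.le hθ.le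
          have hexp : 1 + 3 * κ ^ j ≤ Real.exp (θ * w1 * L' x) := by
            have e1 := Real.add_one_le_exp (θ * w1 * L' x)
            linarith
          have hcnn : 0 ≤ c := add_nonneg (GG_nonneg hκ0.le hκ1.le _ _)
            (GG_nonneg hκ0.le hκ1.le _ _)
          calc GG κ τ (toK K f) = κ ^ j * aliveG κ τ (toK K f) x + (1 - κ ^ j) / 2 * c := hGj
            _ ≤ κ ^ j * (2 * c) + (1 - κ ^ j) / 2 * c := by
                have := mul_le_mul_of_nonneg_left hal hκj0
                linarith
            _ = (1 + 3 * κ ^ j) / 2 * c := by ring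
            _ ≤ (1 + 3 * κ ^ j) / 2 * (4 * Real.exp Wn) :=
                mul_le_mul_of_nonneg_left hc2 (by positivity)
            _ = 2 * Real.exp Wn * (1 + 3 * κ ^ j) := by ring
            _ ≤ 2 * Real.exp Wn * Real.exp (θ * w1 * L' x) :=
                mul_le_mul_of_nonneg_left hexp (by positivity)
            _ = 2 * Real.exp (Wn + θ * w1 * L' x) := by rw [Real.exp_add]; ring

end Pool.Agent.Helper600R2
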