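import Pool.Agent.Helper600R2.JDeg

/-!
Semantic degree lower bound for systems of linear equations mod `q` on a graph
(mod `q` Tseitin systems), over a field containing a primitive `q`-th root of unity.
-/

set_option linter.unusedSectionVars false

namespace Pool.Agent.Helper600R2

open Finset

section characters

variable {Vt E : Type*} [Fintype Vt] [Fintype E] (hd tl : E → Vt) {q : ℕ} [NeZero q]
  {K : Type*} [Field K] (ψ : AddChar (ZMod q) K)

/-- the character `z ↦ ψ ⟨a, z⟩` -/
def chi (a : E → ZMod q) : (E → ZMod q) → K := fun z => ψ (∑ e, a e * z e)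

/-- support -/
def nsupp {ι : Type*} [Fintype ι] (a : ι → ZMod q) : Finset ι := univ.filter (fun e => a e ≠ 0)

/-- coboundary of a potential -/
def dd (u : Vt → ZMod q) : E → ZMod q := fun e => u (hd e) - u (tl e)

/-- pairing of a potential with the charges -/
def pr (u b : Vt → ZMod q) : ZMod q := ∑ v, u v * b v

lemma chi_add (a b : E → ZMod q) : chi ψ (a + b) = chi ψ a * chi ψ b := by
  funext z
  simp [chi, add_mul, Finset.sum_add_distrib, AddChar.map_add_eq_mul]

lemma chi_zero : chi (E := E) ψ 0 = 1 := by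
  funext z
  simp [chi]

lemma chi_ne_zero (a z : E → ZMod q) : chi ψ a z ≠ 0 := by
  intro h
  have h1 : chi ψ a z * chi ψ (-a) z = 1 := by
    have := congrFun (chi_add ψ a (-a)) z
    rw [add_neg_cancel, chi_zero] at this
    simpa using this.symm
  rw [h, zero_mul] at h1
  exact zero_ne_one h1

omit [Fintype Vt] in
lemma dd_add (u u' : Vt → ZMod q) : dd hd tl (u + u') = dd hd tl u + dd hd tl u' := by
  funext e; simp [dd]; ring

omit [Fintype Vt] in
lemma dd_sub (u u' : Vt → ZMod q) : dd hd tl (u - u') = dd hd tl u - dd hd tl u' := by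
  funext e; simp [dd]; ring

omit [Fintype Vt] in
lemma dd_neg (u : Vt → ZMod q) : dd hd tl (-u) = - dd hd tl u := by
  funext e; simp [dd]; ring

omit [Fintype Vt] in
lemma dd_zero : dd hd tl (0 : Vt → ZMod q) = 0 := by
  funext e; simp [dd]

lemma pr_add (u u' b : Vt → ZMod q) : pr (u + u') b = pr u b + pr u' b := by
  simp [pr, add_mul, Finset.sum_add_distrib]

lemma nsupp_add {ι : Type*} [Fintype ι] (a b : ι → ZMod q) :
    (nsupp (a + b)).card ≤ (nsupp a).card + (nsupp b).card := by
  classical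
  refine (card_le_card ?_).trans (card_union_le _ _)
  intro i hi
  simp only [nsupp, mem_filter, mem_univ, true_and, mem_union, Pi.add_apply] at hi ⊢
  by_contra h
  push Not at h
  exact hi (by rw [h.1, h.2, add_zero])

lemma nsupp_neg {ι : Type*} [Fintype ι] (a : ι → ZMod q) : nsupp (-a) = nsupp a := by
  ext i; simp [nsupp]

lemma nsupp_sub {ι : Type*} [Fintype ι] (a b : ι → ZMod q) :
    (nsupp (a - b)).card ≤ (nsupp a).card + (nsupp b).card := by
  rw [sub_eq_add_neg]
  refine (nsupp_add _ _).trans ?_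
  rw [nsupp_neg]

lemma nsupp_zero {ι : Type*} [Fintype ι] : nsupp (0 : ι → ZMod q) = ∅ := by
  ext i; simp [nsupp]

/-- the characters are linearly independent -/
lemma chi_linearIndependent (hψ : ψ.IsPrimitive) : LinearIndependent K (chi (E := E) ψ) := by
  classical
  let hom : (E → ZMod q) → (Multiplicative (E → ZMod q) →* K) := fun a =>
    { toFun := fun z => chi ψ a z.toAdd
      map_one' := by simp [chi]
      map_mul' := by
        intro x y
        simp [chi, mul_add, Finset.sum_add_distrib, AddChar.map_add_eq_mul] }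
  have hinj : Function.Injective hom := by
    intro a b hab
    funext e
    by_contra hne
    have h1 : ∀ z, chi ψ a z = chi ψ b z := fun z => by
      have := DFunLike.congr_fun hab (Multiplicative.ofAdd z)
      exact this
    have h2 : AddChar.mulShift ψ (a e - b e) ≠ 1 := hψ (sub_ne_zero.mpr hne)
    apply h2
    ext t
    rw [AddChar.mulShift_apply, AddChar.one_apply]
    have h3 := h1 (Pi.single e t)
    have h4 : ∀ c : E → ZMod q, chi ψ c (Pi.single e t) = ψ (c e * t) := by
      intro c
      simp only [chi]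
      congr 1
      rw [Finset.sum_eq_single e]
      · simp
      · intro i _ hi
        simp [Pi.single_eq_of_ne hi]
      · intro h; exact absurd (mem_univ _) h
    rw [h4, h4] at h3
    rw [sub_mul, AddChar.map_sub_eq_div, h3, div_self]
    rw [← h4 b]
    exact chi_ne_zero ψ b _
  have h5 := (linearIndependent_monoidHom (Multiplicative (E → ZMod q)) K).comp hom hinj
  exact h5

/-- `u` is small: supported on less than a third of the vertices -/
def small (u : Vt → ZMod q) : Prop := 3 * (nsupp u).card < Fintype.card Vt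

/-- binomials of the system with charges `b` in degree `D` -/
def gens (b : Vt → ZMod q) (D : ℕ) : Set ((E → ZMod q) → K) :=
  {g | ∃ (a : E → ZMod q) (u : Vt → ZMod q), small u ∧ (nsupp a).card ≤ D ∧
    (nsupp (a - dd hd tl u)).card ≤ D ∧
    g = chi ψ a - ψ (pr u b) • chi ψ (a - dd hd tl u)}

/-- the span of the binomials -/
def NF (b : Vt → ZMod q) (D : ℕ) : Submodule K ((E → ZMod q) → K) :=
  Submodule.span K (gens hd tl ψ b D)

/-- span of characters with small support -/
def DC (w : ℕ) : Submodule K ((E → ZMod q) → K) :=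
  Submodule.span K {g | ∃ a : E → ZMod q, (nsupp a).card ≤ w ∧ g = chi ψ a}

lemma NF_mul {b : Vt → ZMod q} {D w : ℕ} {f g : (E → ZMod q) → K}
    (hf : f ∈ NF hd tl ψ b D) (hg : g ∈ DC ψ w) : f * g ∈ NF hd tl ψ b (D + w) := by
  have h1 : f * g ∈ (NF hd tl ψ b D) * (DC (E := E) ψ w) := Submodule.mul_mem_mul hf hg
  have h2 : (NF hd tl ψ b D) * (DC (E := E) ψ w) ≤ NF hd tl ψ b (D + w) := by
    unfold NF DC
    rw [Submodule.span_mul_span]
    apply Submodule.span_mono
    rintro _ ⟨_, ⟨a, u, hu, ha, ha', rfl⟩, _, ⟨c, hc, rfl⟩, rfl⟩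
    refine ⟨a + c, u, hu, (nsupp_add _ _).trans (by omega), ?_, ?_⟩
    · have : a + c - dd hd tl u = (a - dd hd tl u) + c := by ring
      rw [this]
      exact (nsupp_add _ _).trans (by omega)
    · have : a + c - dd hd tl u = (a - dd hd tl u) + c := by ring
      rw [this, chi_add, chi_add]
      simp only [sub_mul, smul_mul_assoc]
  exact h2 h1

lemma NF_mono {b : Vt → ZMod q} {D D' : ℕ} (h : D ≤ D') :
    NF hd tl ψ b D ≤ NF hd tl ψ b D' := by
  apply Submodule.span_mono
  rintro g ⟨a, u, hu, ha, ha', rfl⟩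
  exact ⟨a, u, hu, ha.trans h, ha'.trans h, rfl⟩

lemma DC_mono {w w' : ℕ} (h : w ≤ w') : DC (E := E) ψ w ≤ DC ψ w' := by
  apply Submodule.span_mono
  rintro g ⟨a, ha, rfl⟩
  exact ⟨a, ha.trans h, rfl⟩

lemma DC_mul {w w' : ℕ} {f g : (E → ZMod q) → K}
    (hf : f ∈ DC ψ w) (hg : g ∈ DC ψ w') : f * g ∈ DC (E := E) ψ (w + w') := by
  have h1 : f * g ∈ (DC (E := E) ψ w) * (DC (E := E) ψ w') := Submodule.mul_mem_mul hf hg
  have h2 : (DC (E := E) ψ w) * (DC (E := E) ψ w') ≤ DC ψ (w + w') := by
    unfold DC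
    rw [Submodule.span_mul_span]
    apply Submodule.span_mono
    rintro _ ⟨_, ⟨a, ha, rfl⟩, _, ⟨c, hc, rfl⟩, rfl⟩
    exact ⟨a + c, (nsupp_add _ _).trans (by omega), (chi_add ψ a c).symm⟩
  exact h2 h1

lemma chi_mem_DC {a : E → ZMod q} {w : ℕ} (h : (nsupp a).card ≤ w) : chi ψ a ∈ DC ψ w :=
  Submodule.subset_span ⟨a, h, rfl⟩

lemma one_mem_DC (w : ℕ) : (1 : (E → ZMod q) → K) ∈ DC ψ w := by
  rw [← chi_zero ψ]
  exact chi_mem_DC ψ (by simp [nsupp_zero])

/-- the reduction operator: it kills `NF D` and reduces `DC w` modulo `NF w` -/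
lemma exists_reduction (hψ : ψ.IsPrimitive) (b : Vt → ZMod q) (D : ℕ)
    (hVt : 0 < Fintype.card Vt)
    (hconn : ∀ u : Vt → ZMod q, dd hd tl u = 0 → (nsupp u).card < Fintype.card Vt → u = 0)
    (hexp : ∀ u : Vt → ZMod q, (nsupp (dd hd tl u)).card ≤ 2 * D →
      3 * (nsupp u).card < 2 * Fintype.card Vt → 3 * (nsupp u).card < Fintype.card Vt) :
    ∃ R : ((E → ZMod q) → K) →ₗ[K] ((E → ZMod q) → K),
      (∀ f ∈ NF hd tl ψ b D, R f = 0) ∧
      (∀ w ≤ D, ∀ f ∈ DC ψ w, f - R f ∈ NF hd tl ψ b w) ∧
      R 1 ≠ 0 := by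
  classical
  -- the equivalence relation on characters of degree at most `D`
  let rel : (E → ZMod q) → (E → ZMod q) → Prop := fun a a' =>
    (nsupp a).card ≤ D ∧ (nsupp a').card ≤ D ∧ ∃ u : Vt → ZMod q, small u ∧ a - a' = dd hd tl u
  have small0 : small (0 : Vt → ZMod q) := by simp [small, nsupp_zero, hVt]
  have rel_refl : ∀ a, (nsupp a).card ≤ D → rel a a := fun a ha =>
    ⟨ha, ha, 0, small0, by rw [dd_zero, sub_self]⟩
  have rel_symm : ∀ {a a'}, rel a a' → rel a' a := by
    rintro a a' ⟨h1, h2, u, hu, h⟩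
    refine ⟨h2, h1, -u, ?_, ?_⟩
    · simpa [small, nsupp_neg] using hu
    · rw [dd_neg, ← h]; ring
  have rel_trans : ∀ {a a' a''}, rel a a' → rel a' a'' → rel a a'' := by
    rintro a a' a'' ⟨h1, h2, u, hu, h⟩ ⟨h3, h4, u', hu', h'⟩
    have e1 : a - a'' = dd hd tl (u + u') := by
      rw [dd_add, ← h, ← h']; ring
    refine ⟨h1, h4, u + u', ?_, e1⟩
    apply hexp
    · rw [← e1]
      exact (nsupp_sub _ _).trans (by omega)
    · have := nsupp_add u u'
      simp only [small] at hu hu'
      omega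
  -- canonical representatives
  let cls : (E → ZMod q) → Set (E → ZMod q) := fun a => {a' | rel a a'}
  let r : (E → ZMod q) → (E → ZMod q) := fun a =>
    if h : (cls a).Nonempty then Function.argminOn (fun c => (nsupp c).card) (cls a) h else a
  have r_mem : ∀ a, (nsupp a).card ≤ D → rel a (r a) := by
    intro a ha
    have hne : (cls a).Nonempty := ⟨a, rel_refl a ha⟩
    have : r a ∈ cls a := by
      simp only [r, dif_pos hne]
      exact Function.argminOn_mem _ _ _
    exact this
  have r_le : ∀ a, (nsupp a).card ≤ D → (nsupp (r a)).card ≤ (nsupp a).card := by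
    intro a ha
    have hne : (cls a).Nonempty := ⟨a, rel_refl a ha⟩
    simp only [r, dif_pos hne]
    exact Function.argminOn_le (fun c => (nsupp c).card) (cls a) (a := a) (rel_refl a ha)
  have r_eq : ∀ {a a'}, rel a a' → r a = r a' := by
    intro a a' h
    have hcls : cls a = cls a' := by
      ext c
      exact ⟨fun hc => rel_trans (rel_symm h) hc, fun hc => rel_trans h hc⟩
    have hne' : (cls a').Nonempty := ⟨a', rel_refl a' h.2.1⟩
    have hne : (cls a).Nonempty := by rw [hcls]; exact hne'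
    simp only [r, dif_pos hne, dif_pos hne', hcls]
  -- the potentials
  have hpot : ∀ a, ∃ u : Vt → ZMod q, (nsupp a).card ≤ D →
      (small u ∧ a - r a = dd hd tl u) := by
    intro a
    by_cases ha : (nsupp a).card ≤ D
    · obtain ⟨_, _, u, hu, h⟩ := r_mem a ha
      exact ⟨u, fun _ => ⟨hu, h⟩⟩
    · exact ⟨0, fun h => absurd h ha⟩
  choose pot hpot using hpot
  have phase_eq : ∀ (a : E → ZMod q) (u : Vt → ZMod q), small u → (nsupp a).card ≤ D →
      (nsupp (a - dd hd tl u)).card ≤ D →
      r a = r (a - dd hd tl u) ∧ pot a = pot (a - dd hd tl u) + u := by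
    intro a u hu ha ha'
    have hrel : rel a (a - dd hd tl u) := ⟨ha, ha', u, hu, by ring⟩
    have hr := r_eq hrel
    refine ⟨hr, ?_⟩
    obtain ⟨s1, e1⟩ := hpot a ha
    obtain ⟨s2, e2⟩ := hpot _ ha'
    have hz : dd hd tl (pot a - (pot (a - dd hd tl u) + u)) = 0 := by
      rw [dd_sub, dd_add, ← e1, ← e2, hr]; ring
    have hcard : (nsupp (pot a - (pot (a - dd hd tl u) + u))).card < Fintype.card Vt := by
      have h1 := nsupp_sub (pot a) (pot (a - dd hd tl u) + u)
      have h2 := nsupp_add (pot (a - dd hd tl u)) u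
      simp only [small] at s1 s2 hu
      omega
    have := hconn _ hz hcard
    exact sub_eq_zero.mp this
  -- the operator on coefficients
  let Λ : ((E → ZMod q) →₀ K) →ₗ[K] ((E → ZMod q) → K) := Finsupp.linearCombination K (chi ψ)
  have hΛ : Function.Injective Λ := chi_linearIndependent ψ hψ
  obtain ⟨Λ', hΛ'⟩ := LinearMap.exists_leftInverse_of_injective Λ (LinearMap.ker_eq_bot.mpr hΛ)
  let R₀ : ((E → ZMod q) →₀ K) →ₗ[K] ((E → ZMod q) → K) :=
    Finsupp.linearCombination K (fun a => ψ (pr (pot a) b) • chi ψ (r a))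
  let R := R₀.comp Λ'
  have hR : ∀ a, R (chi ψ a) = ψ (pr (pot a) b) • chi ψ (r a) := by
    intro a
    have h1 : chi ψ a = Λ (Finsupp.single a 1) := by simp [Λ]
    have h2 : Λ' (Λ (Finsupp.single a 1)) = Finsupp.single a 1 := by
      have := LinearMap.congr_fun hΛ' (Finsupp.single a (1 : K))
      simpa using this
    show R₀ (Λ' (chi ψ a)) = _
    rw [h1, h2]
    simp [R₀]
  refine ⟨R, ?_, ?_, ?_⟩
  · -- kills `NF`
    have : NF hd tl ψ b D ≤ LinearMap.ker R := by
      unfold NF
      rw [Submodule.span_le]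
      rintro g ⟨a, u, hu, ha, ha', rfl⟩
      obtain ⟨h1, h2⟩ := phase_eq a u hu ha ha'
      simp only [SetLike.mem_coe, LinearMap.mem_ker, map_sub, map_smul, hR]
      rw [← h1, h2, pr_add, AddChar.map_add_eq_mul, smul_smul, mul_comm, sub_self]
    intro f hf
    exact this hf
  · intro w hw f hf
    have : DC (E := E) ψ w ≤ (NF hd tl ψ b w).comap (LinearMap.id - R) := by
      unfold DC
      rw [Submodule.span_le]
      rintro g ⟨a, ha, rfl⟩
      simp only [SetLike.mem_coe, Submodule.mem_comap, LinearMap.sub_apply, LinearMap.id_apply, hR]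
      obtain ⟨s1, e1⟩ := hpot a (ha.trans hw)
      have e2 : r a = a - dd hd tl (pot a) := by rw [← e1]; ring
      refine Submodule.subset_span ⟨a, pot a, s1, ha, ?_, ?_⟩
      · rw [← e2]
        exact (r_le a (ha.trans hw)).trans ha
      · rw [← e2]
    have h := this hf
    simpa using h
  · rw [← chi_zero ψ, hR]
    intro h
    have h1 := congrFun h 0
    simp only [Pi.smul_apply, smul_eq_mul, Pi.zero_apply, mul_eq_zero] at h1
    rcases h1 with h1 | h1
    · exact (ψ.val_isUnit _).ne_zero h1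
    · exact chi_ne_zero ψ _ _ h1

end characters

end Pool.Agent.Helper600R2
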